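import Mathlib

/-! Abel summation on a two dimensional grid: the discrete Laplace transform of the two
allocation functions attached to one potential. -/

namespace Pool.Agent.Lib.MP_2c6a66_lc.LB

open Finset

noncomputable section

theorem abel (r : ℝ) (f : ℕ → ℝ) (N : ℕ) :
    r * ∑ i ∈ range N, r ^ i * (f (i + 1) - f i)
      = (1 - r) * ∑ i ∈ range N, r ^ i * f i + r ^ N * f N - f 0 := by
  induction N with
  | zero => simp
  | succ N ih =>
    rw [Finset.sum_range_succ, Finset.sum_range_succ, mul_add, mul_add, ih]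
    ring

theorem row_err {r h : ℝ} (hr0 : 0 ≤ r) (hr1 : r ≤ 1) (hh : 0 ≤ h) {e q : ℕ → ℝ}
    (hq0 : ∀ i, 0 ≤ q i) (hq1 : ∀ i, q i ≤ 1) (he0 : ∀ i, 0 ≤ e i)
    (he1 : ∀ i, e i ≤ h * (q i - q (i + 1))) (N : ℕ) :
    0 ≤ ∑ i ∈ range N, r ^ i * e i ∧ ∑ i ∈ range N, r ^ i * e i ≤ h := by
  refine ⟨Finset.sum_nonneg fun i _ => mul_nonneg (pow_nonneg hr0 _) (he0 i), ?_⟩
  have h1 : ∑ i ∈ range N, r ^ i * e i ≤ ∑ i ∈ range N, h * (q i - q (i + 1)) := by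
    refine Finset.sum_le_sum fun i _ => ?_
    have : r ^ i ≤ 1 := pow_le_one₀ hr0 hr1
    calc r ^ i * e i ≤ 1 * e i := mul_le_mul_of_nonneg_right this (he0 i)
      _ ≤ _ := by rw [one_mul]; exact he1 i
  rw [← Finset.mul_sum, Finset.sum_range_sub' (fun i => q i)] at h1
  have := hq0 N
  have := hq1 0
  nlinarith

theorem geom_le {r : ℝ} (hr0 : 0 ≤ r) (N : ℕ) :
    (1 - r) * ∑ j ∈ range N, r ^ j ≤ 1 := by
  have := mul_neg_geom_sum r N
  rw [this]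
  have := pow_nonneg hr0 N
  linarith

theorem geom_nonneg {r : ℝ} (hr0 : 0 ≤ r) (N : ℕ) : 0 ≤ ∑ j ∈ range N, r ^ j :=
  Finset.sum_nonneg fun _ _ => pow_nonneg hr0 _

theorem half {r1 r2 h B : ℝ} (hr0 : 0 ≤ r1) (hr1 : r1 ≤ 1) (hs0 : 0 ≤ r2) (hh : 0 ≤ h)
    (N : ℕ) {F W q : ℕ → ℕ → ℝ} (hq0 : ∀ i j, 0 ≤ q i j) (hq1 : ∀ i j, q i j ≤ 1)
    (he0 : ∀ i j, 0 ≤ W (i + 1) j - W i j + F i j)
    (he1 : ∀ i j, W (i + 1) j - W i j + F i j ≤ h * (q i j - q (i + 1) j))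
    (hW0 : ∀ j, |W 0 j| ≤ h) (hWN : ∀ j < N, |W N j| ≤ B) :
    |r1 * ∑ j ∈ range N, ∑ i ∈ range N, r2 ^ j * (r1 ^ i * F i j)
      + (1 - r1) * ∑ j ∈ range N, ∑ i ∈ range N, r2 ^ j * (r1 ^ i * W i j)|
      ≤ (B * r1 ^ N + 2 * h) * ∑ j ∈ range N, r2 ^ j := by
  have key : ∀ j, r1 * ∑ i ∈ range N, r1 ^ i * F i j + (1 - r1) * ∑ i ∈ range N, r1 ^ i * W i j
      = W 0 j - r1 ^ N * W N j
        + r1 * ∑ i ∈ range N, r1 ^ i * (W (i + 1) j - W i j + F i j) := by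
    intro j
    have := abel r1 (fun i => W i j) N
    have e : ∑ i ∈ range N, r1 ^ i * (W (i + 1) j - W i j + F i j)
        = ∑ i ∈ range N, r1 ^ i * (W (i + 1) j - W i j) + ∑ i ∈ range N, r1 ^ i * F i j := by
      rw [← Finset.sum_add_distrib]
      exact Finset.sum_congr rfl fun i _ => by ring
    rw [e, mul_add, this]
    ring
  have e : r1 * ∑ j ∈ range N, ∑ i ∈ range N, r2 ^ j * (r1 ^ i * F i j)
      + (1 - r1) * ∑ j ∈ range N, ∑ i ∈ range N, r2 ^ j * (r1 ^ i * W i j)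
      = ∑ j ∈ range N, r2 ^ j * (W 0 j - r1 ^ N * W N j
        + r1 * ∑ i ∈ range N, r1 ^ i * (W (i + 1) j - W i j + F i j)) := by
    rw [Finset.mul_sum, Finset.mul_sum, ← Finset.sum_add_distrib]
    refine Finset.sum_congr rfl fun j _ => ?_
    rw [← key j, ← Finset.mul_sum, ← Finset.mul_sum]
    ring
  rw [e, Finset.mul_sum]
  refine (Finset.abs_sum_le_sum_abs _ _).trans (Finset.sum_le_sum fun j hj => ?_)
  rw [abs_mul, abs_of_nonneg (pow_nonneg hs0 j), mul_comm]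
  refine mul_le_mul_of_nonneg_right ?_ (pow_nonneg hs0 j)
  obtain ⟨g0, g1⟩ := row_err hr0 hr1 hh (hq0 · j) (hq1 · j) (he0 · j) (he1 · j) N
  have h1 := abs_le.1 (hW0 j)
  have h2 : |r1 ^ N * W N j| ≤ B * r1 ^ N := by
    rw [abs_mul, abs_of_nonneg (pow_nonneg hr0 N), mul_comm]
    exact mul_le_mul_of_nonneg_right (hWN j (Finset.mem_range.1 hj)) (pow_nonneg hr0 N)
  have h2' := abs_le.1 h2
  have h3 := mul_nonneg hr0 g0
  have h4 : r1 * ∑ i ∈ range N, r1 ^ i * (W (i + 1) j - W i j + F i j) ≤ h :=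
    (mul_le_mul_of_nonneg_right hr1 g0).trans (by rw [one_mul]; exact g1)
  exact abs_le.2 ⟨by linarith, by linarith⟩

/-- potential and allocations on a grid of step `h` -/
structure Lat (h : ℝ) (v p1 p2 : ℕ → ℕ → ℝ) (w1 w2 : ℕ → ℝ) : Prop where
  p1_nonneg : ∀ i j, 0 ≤ p1 i j
  p1_le : ∀ i j, p1 i j ≤ 1
  p2_nonneg : ∀ i j, 0 ≤ p2 i j
  p2_le : ∀ i j, p2 i j ≤ 1
  up1 : ∀ i j, v (i + 1) j + h * p1 (i + 1) j ≤ v i j
  dn1 : ∀ i j, v i j - h * p1 i j ≤ v (i + 1) j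
  up2 : ∀ i j, v i (j + 1) + h * p2 i (j + 1) ≤ v i j
  dn2 : ∀ i j, v i j - h * p2 i j ≤ v i (j + 1)
  bd1 : ∀ i, p1 i 0 = w1 i
  bd2 : ∀ j, p2 0 j = w2 j

theorem Lat.main {h : ℝ} {v p1 p2 : ℕ → ℕ → ℝ} {w1 w2 : ℕ → ℝ} (L : Lat h v p1 p2 w1 w2)
    (hh : 0 ≤ h) {r1 r2 : ℝ} (hr0 : 0 ≤ r1) (hr1 : r1 ≤ 1) (hs0 : 0 ≤ r2) (hs1 : r2 ≤ 1)
    (N : ℕ) :
    |(1 - r2) * r1 * ∑ i ∈ range N, ∑ j ∈ range N, r1 ^ i * r2 ^ j * (h * (p1 i j - w1 i))
      - (1 - r1) * r2 * ∑ i ∈ range N, ∑ j ∈ range N, r1 ^ i * r2 ^ j * (h * (p2 i j - w2 j))|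
      ≤ 4 * h + h * (N + 1) * (r1 ^ N + r2 ^ N) := by
  set W : ℕ → ℕ → ℝ := fun i j => v i j - v 0 0 + h * ∑ k ∈ range i, w1 k
    + h * ∑ k ∈ range j, w2 k with hW
  have stepi : ∀ i j, W (i + 1) j - W i j = v (i + 1) j - v i j + h * w1 i := by
    intro i j
    simp only [hW, Finset.sum_range_succ]
    ring
  have stepj : ∀ i j, W i (j + 1) - W i j = v i (j + 1) - v i j + h * w2 j := by
    intro i j
    simp only [hW, Finset.sum_range_succ]
    ring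
  have w1_0 : ∀ i, 0 ≤ w1 i := fun i => by rw [← L.bd1]; exact L.p1_nonneg _ _
  have w1_1 : ∀ i, w1 i ≤ 1 := fun i => by rw [← L.bd1]; exact L.p1_le _ _
  have w2_0 : ∀ i, 0 ≤ w2 i := fun i => by rw [← L.bd2]; exact L.p2_nonneg _ _
  have w2_1 : ∀ i, w2 i ≤ 1 := fun i => by rw [← L.bd2]; exact L.p2_le _ _
  -- boundary values
  have b0 : ∀ j, 0 ≤ W 0 j ∧ W 0 j ≤ h * (w2 0 - w2 j) := by
    intro j
    induction j with
    | zero => simp [hW]
    | succ j ih =>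
      have h1 := stepj 0 j
      have h2 := L.up2 0 j
      have h3 := L.dn2 0 j
      rw [L.bd2] at h2 h3
      constructor <;> linarith [ih.1, ih.2]
  have c0 : ∀ i, 0 ≤ W i 0 ∧ W i 0 ≤ h * (w1 0 - w1 i) := by
    intro i
    induction i with
    | zero => simp [hW]
    | succ i ih =>
      have h1 := stepi i 0
      have h2 := L.up1 i 0
      have h3 := L.dn1 i 0
      rw [L.bd1] at h2 h3
      constructor <;> linarith [ih.1, ih.2]
  have hb0 : ∀ j, |W 0 j| ≤ h := by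
    intro j
    have h1 := b0 j
    have h2 : h * (w2 0 - w2 j) ≤ h * 1 :=
      mul_le_mul_of_nonneg_left (by linarith [w2_1 0, w2_0 j]) hh
    exact abs_le.2 ⟨by linarith, by linarith⟩
  have hc0 : ∀ i, |W i 0| ≤ h := by
    intro i
    have h1 := c0 i
    have h2 : h * (w1 0 - w1 i) ≤ h * 1 :=
      mul_le_mul_of_nonneg_left (by linarith [w1_1 0, w1_0 i]) hh
    exact abs_le.2 ⟨by linarith, by linarith⟩
  have bi : ∀ i j, |W i j| ≤ h * (i + 1) := by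
    intro i j
    induction i with
    | zero => simpa using hb0 j
    | succ i ih =>
      have h1 := stepi i j
      have h2 := L.up1 i j
      have h3 := L.dn1 i j
      have h4 := mul_nonneg hh (L.p1_nonneg (i + 1) j)
      have h5 := mul_nonneg hh (w1_0 i)
      have h6 : h * p1 i j ≤ h * 1 := mul_le_mul_of_nonneg_left (L.p1_le i j) hh
      have h7 : h * w1 i ≤ h * 1 := mul_le_mul_of_nonneg_left (w1_1 i) hh
      have h8 := abs_le.1 ih
      push_cast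
      exact abs_le.2 ⟨by linarith [h8.1], by linarith [h8.2]⟩
  have bj : ∀ i j, |W i j| ≤ h * (j + 1) := by
    intro i j
    induction j with
    | zero => simpa using hc0 i
    | succ j ih =>
      have h1 := stepj i j
      have h2 := L.up2 i j
      have h3 := L.dn2 i j
      have h4 := mul_nonneg hh (L.p2_nonneg i (j + 1))
      have h5 := mul_nonneg hh (w2_0 j)
      have h6 : h * p2 i j ≤ h * 1 := mul_le_mul_of_nonneg_left (L.p2_le i j) hh
      have h7 : h * w2 j ≤ h * 1 := mul_le_mul_of_nonneg_left (w2_1 j) hh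
      have h8 := abs_le.1 ih
      push_cast
      exact abs_le.2 ⟨by linarith [h8.1], by linarith [h8.2]⟩
  have H1 := half (r1 := r1) (r2 := r2) (B := h * (N + 1)) hr0 hr1 hs0 hh N
    (F := fun i j => h * (p1 i j - w1 i)) (W := W) (q := p1) L.p1_nonneg L.p1_le
    (fun i j => by have := stepi i j; have := L.dn1 i j; linarith)
    (fun i j => by have := stepi i j; have := L.up1 i j; linarith) hb0 (fun j _ => bi N j)
  have H2 := half (r1 := r2) (r2 := r1) (B := h * (N + 1)) hs0 hs1 hr0 hh N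
    (F := fun j i => h * (p2 i j - w2 j)) (W := fun j i => W i j) (q := fun j i => p2 i j)
    (fun j i => L.p2_nonneg i j) (fun j i => L.p2_le i j)
    (fun j i => by have := stepj i j; have := L.dn2 i j; linarith)
    (fun j i => by have := stepj i j; have := L.up2 i j; linarith) hc0 (fun i _ => bj i N)
  -- same order of summation
  have e1 : ∑ j ∈ range N, ∑ i ∈ range N, r2 ^ j * (r1 ^ i * (h * (p1 i j - w1 i)))
      = ∑ i ∈ range N, ∑ j ∈ range N, r1 ^ i * r2 ^ j * (h * (p1 i j - w1 i)) := by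
    rw [Finset.sum_comm]
    exact Finset.sum_congr rfl fun i _ => Finset.sum_congr rfl fun j _ => by ring
  have e2 : ∑ j ∈ range N, ∑ i ∈ range N, r2 ^ j * (r1 ^ i * W i j)
      = ∑ i ∈ range N, ∑ j ∈ range N, r1 ^ i * r2 ^ j * W i j := by
    rw [Finset.sum_comm]
    exact Finset.sum_congr rfl fun i _ => Finset.sum_congr rfl fun j _ => by ring
  have e3 : ∑ i ∈ range N, ∑ j ∈ range N, r1 ^ i * (r2 ^ j * (h * (p2 i j - w2 j)))
      = ∑ i ∈ range N, ∑ j ∈ range N, r1 ^ i * r2 ^ j * (h * (p2 i j - w2 j)) :=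
    Finset.sum_congr rfl fun i _ => Finset.sum_congr rfl fun j _ => by ring
  have e4 : ∑ i ∈ range N, ∑ j ∈ range N, r1 ^ i * (r2 ^ j * W i j)
      = ∑ i ∈ range N, ∑ j ∈ range N, r1 ^ i * r2 ^ j * W i j :=
    Finset.sum_congr rfl fun i _ => Finset.sum_congr rfl fun j _ => by ring
  rw [e1, e2] at H1
  rw [e3, e4] at H2
  set X1 := ∑ i ∈ range N, ∑ j ∈ range N, r1 ^ i * r2 ^ j * (h * (p1 i j - w1 i))
  set X2 := ∑ i ∈ range N, ∑ j ∈ range N, r1 ^ i * r2 ^ j * (h * (p2 i j - w2 j))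
  set S := ∑ i ∈ range N, ∑ j ∈ range N, r1 ^ i * r2 ^ j * W i j
  have u1 : 0 ≤ 1 - r1 := by linarith
  have u2 : 0 ≤ 1 - r2 := by linarith
  have g1 := geom_le hs0 N
  have g2 := geom_le hr0 N
  have B1 : 0 ≤ h * (N + 1) * r1 ^ N + 2 * h := by positivity
  have B2 : 0 ≤ h * (N + 1) * r2 ^ N + 2 * h := by positivity
  have K1 : |(1 - r2) * (r1 * X1 + (1 - r1) * S)| ≤ h * (N + 1) * r1 ^ N + 2 * h := by
    rw [abs_mul, abs_of_nonneg u2]
    calc (1 - r2) * |r1 * X1 + (1 - r1) * S|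
        ≤ (1 - r2) * ((h * (N + 1) * r1 ^ N + 2 * h) * ∑ j ∈ range N, r2 ^ j) :=
          mul_le_mul_of_nonneg_left H1 u2
      _ = (h * (N + 1) * r1 ^ N + 2 * h) * ((1 - r2) * ∑ j ∈ range N, r2 ^ j) := by ring
      _ ≤ (h * (N + 1) * r1 ^ N + 2 * h) * 1 := mul_le_mul_of_nonneg_left g1 B1
      _ = _ := by ring
  have K2 : |(1 - r1) * (r2 * X2 + (1 - r2) * S)| ≤ h * (N + 1) * r2 ^ N + 2 * h := by
    rw [abs_mul, abs_of_nonneg u1]
    calc (1 - r1) * |r2 * X2 + (1 - r2) * S|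
        ≤ (1 - r1) * ((h * (N + 1) * r2 ^ N + 2 * h) * ∑ j ∈ range N, r1 ^ j) :=
          mul_le_mul_of_nonneg_left H2 u1
      _ = (h * (N + 1) * r2 ^ N + 2 * h) * ((1 - r1) * ∑ j ∈ range N, r1 ^ j) := by ring
      _ ≤ (h * (N + 1) * r2 ^ N + 2 * h) * 1 := mul_le_mul_of_nonneg_left g2 B2
      _ = _ := by ring
  have e : (1 - r2) * r1 * X1 - (1 - r1) * r2 * X2
      = (1 - r2) * (r1 * X1 + (1 - r1) * S) - (1 - r1) * (r2 * X2 + (1 - r2) * S) := by ring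
  rw [e]
  refine (abs_sub _ _).trans ?_
  linarith

end

end Pool.Agent.Lib.MP_2c6a66_lc.LB
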