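import Mathlib

/-! Basic definitions for the exact determination of the truthful-in-expectation ratio. -/

namespace Pool.Agent.Lib.MP_2c6a66_lc.LB

open scoped NNReal

/-- There is a truthful-in-expectation mechanism for `n` jobs and two machines, defined on all
nonnegative reports, whose expected makespan is at most `c` times the optimal makespan. -/
def HasMechanism (n : ℕ) (c : ℝ) : Prop :=
  ∃ (p : (Fin 2 → Fin n → ℝ) → (Fin n → Fin 2) → ℝ)
    (pay : (Fin 2 → Fin n → ℝ) → Fin 2 → ℝ),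
    ∀ b : Fin 2 → Fin n → ℝ, (∀ i k, 0 ≤ b i k) →
      (∀ σ, 0 ≤ p b σ) ∧
      (∑ σ, p b σ = 1) ∧
      (∀ (i : Fin 2) (r : Fin n → ℝ), (∀ k, 0 ≤ r k) →
        pay (Function.update b i r) i
            - ∑ σ, p (Function.update b i r) σ * ∑ k with σ k = i, b i k
          ≤ pay b i - ∑ σ, p b σ * ∑ k with σ k = i, b i k) ∧
      (∀ τ : Fin n → Fin 2,
        ∑ σ, p b σ * max (∑ k with σ k = 0, b 0 k) (∑ k with σ k = 1, b 1 k)
          ≤ c * max (∑ k with τ k = 0, b 0 k) (∑ k with τ k = 1, b 1 k))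

/-- a job: (time on machine 0, time on machine 1) -/
abbrev T := ℝ≥0 × ℝ≥0

/-- a job which costs nothing on one of the machines -/
def Null (ν : T) : Prop := ν.1 = 0 ∨ ν.2 = 0

/-- Anonymous family: `p t m` is the probability that job `t` goes to machine `0` in the instance
`t ::ₘ m`. -/
structure Fam (c : ℝ) (p : T × Multiset T → ℝ) : Prop where
  nonneg : ∀ ω, 0 ≤ p ω
  le_one : ∀ ω, p ω ≤ 1
  exV : ∃ V : Multiset T → ℝ, ∀ (a a' b : ℝ≥0) (m : Multiset T),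
    V ((a', b) ::ₘ m) + ((a' : ℝ) - a) * p ((a', b), m) ≤ V ((a, b) ::ₘ m)
  exY : ∃ Y : Multiset T → ℝ, ∀ (a b b' : ℝ≥0) (m : Multiset T),
    Y ((a, b') ::ₘ m) + ((b' : ℝ) - b) * (1 - p ((a, b'), m)) ≤ Y ((a, b) ::ₘ m)
  cost : ∀ (s t : T) (m : Multiset T), (∀ ν ∈ m, Null ν) →
    min (s.1 : ℝ) t.2 + t.1 * p (t, s ::ₘ m) + ((s.2 : ℝ) - t.2 - t.1) * (1 - p (s, t ::ₘ m))
      ≤ c * max (s.1 : ℝ) t.2
  cost' : ∀ (s t : T) (m : Multiset T), (∀ ν ∈ m, Null ν) →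
    min (s.1 : ℝ) t.2 + s.2 * (1 - p (s, t ::ₘ m)) + ((t.1 : ℝ) - s.1 - s.2) * p (t, s ::ₘ m)
      ≤ c * max (s.1 : ℝ) t.2

end Pool.Agent.Lib.MP_2c6a66_lc.LB
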