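import Pool.Agent.Lib.MP_2c6a66_lc.LB.Grid

/-! Averages of the interaction against every continuous test function tend to zero. -/

namespace Pool.Agent.Lib.MP_2c6a66_lc.LB

open scoped NNReal Topology
open Finset Filter

noncomputable section

/-- the four exponents -/
def om : Fin 4 → ℝ := ![√2, 1, 1, 1]

theorem one_le_om (i : Fin 4) : 1 ≤ om i := by
  fin_cases i
  · change 1 ≤ √2
    rw [Real.one_le_sqrt]; norm_num
  · exact le_rfl
  · exact le_rfl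
  · exact le_rfl

theorem om_pos (i : Fin 4) : 0 < om i := lt_of_lt_of_le one_pos (one_le_om i)

/-- the ratio as a point of the unit interval -/
def Rk (n : ℕ) (i : Fin 4) : unitInterval :=
  ⟨rr (om i) n, (rr_pos _ n).le, rr_le (om_pos i).le n⟩

/-- the point of the cube attached to a grid point -/
def pt (n i j k l : ℕ) : Fin 4 → unitInterval :=
  ![Rk n 0 ^ i, Rk n 1 ^ j, Rk n 2 ^ k, Rk n 3 ^ l]

/-- weighted average of an interaction times a test function -/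
def LL (F : ℝ≥0 → ℕ → ℕ → ℕ → ℕ → ℝ) (n : ℕ) (φ : C(Fin 4 → unitInterval, ℝ)) : ℝ :=
  (hh n : ℝ) ^ 4 * S4 (rr (om 0) n) (rr (om 1) n) (rr (om 2) n) (rr (om 3) n) (NN n)
    (fun i j k l => φ (pt n i j k l) * F (hh n) i j k l)

theorem S4_add (r1 r2 r3 r4 : ℝ) (N : ℕ) (F G : ℕ → ℕ → ℕ → ℕ → ℝ) :
    S4 r1 r2 r3 r4 N (fun i j k l => F i j k l + G i j k l)
      = S4 r1 r2 r3 r4 N F + S4 r1 r2 r3 r4 N G := by
  simp only [S4, mul_add, Finset.sum_add_distrib]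

theorem S4_smul (r1 r2 r3 r4 : ℝ) (N : ℕ) (a : ℝ) (F : ℕ → ℕ → ℕ → ℕ → ℝ) :
    S4 r1 r2 r3 r4 N (fun i j k l => a * F i j k l) = a * S4 r1 r2 r3 r4 N F := by
  simp only [S4, Finset.mul_sum]
  refine Finset.sum_congr rfl fun i _ => Finset.sum_congr rfl fun j _ =>
    Finset.sum_congr rfl fun k _ => Finset.sum_congr rfl fun l _ => by ring

theorem S4_mono {r1 r2 r3 r4 : ℝ} (h1 : 0 ≤ r1) (h2 : 0 ≤ r2) (h3 : 0 ≤ r3) (h4 : 0 ≤ r4)
    (N : ℕ) {F G : ℕ → ℕ → ℕ → ℕ → ℝ} (h : ∀ i j k l, F i j k l ≤ G i j k l) :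
    S4 r1 r2 r3 r4 N F ≤ S4 r1 r2 r3 r4 N G :=
  Finset.sum_le_sum fun i _ => Finset.sum_le_sum fun j _ => Finset.sum_le_sum fun k _ =>
    Finset.sum_le_sum fun l _ => mul_le_mul_of_nonneg_left (h i j k l) (by positivity)

theorem S4_prod (r1 r2 r3 r4 : ℝ) (N : ℕ) (f1 f2 f3 f4 : ℕ → ℝ) :
    S4 r1 r2 r3 r4 N (fun i j k l => f1 i * f2 j * f3 k * f4 l)
      = (∑ i ∈ range N, r1 ^ i * f1 i) * (∑ j ∈ range N, r2 ^ j * f2 j)
        * ((∑ k ∈ range N, r3 ^ k * f3 k) * (∑ l ∈ range N, r4 ^ l * f4 l)) := by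
  rw [S4_eq, Finset.sum_mul_sum, Finset.sum_mul_sum, Finset.sum_mul]
  refine Finset.sum_congr rfl fun i _ => ?_
  rw [Finset.sum_mul]
  refine Finset.sum_congr rfl fun j _ => ?_
  rw [Finset.mul_sum, Finset.mul_sum]
  refine Finset.sum_congr rfl fun k _ => ?_
  rw [Finset.mul_sum, Finset.mul_sum]
  exact Finset.sum_congr rfl fun l _ => by ring

theorem LL_add (F : ℝ≥0 → ℕ → ℕ → ℕ → ℕ → ℝ) (n : ℕ) (φ ψ : C(Fin 4 → unitInterval, ℝ)) :
    LL F n (φ + ψ) = LL F n φ + LL F n ψ := by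
  simp only [LL, ContinuousMap.add_apply, add_mul, S4_add, mul_add]

theorem LL_smul (F : ℝ≥0 → ℕ → ℕ → ℕ → ℕ → ℝ) (n : ℕ) (a : ℝ)
    (φ : C(Fin 4 → unitInterval, ℝ)) : LL F n (a • φ) = a * LL F n φ := by
  simp only [LL, ContinuousMap.smul_apply, smul_eq_mul, mul_assoc, S4_smul]
  ring

theorem hdiv_le {ω : ℝ} (hω : 1 ≤ ω) (n : ℕ) : hh n / (1 - rr ω n) ≤ 2 := by
  have h0 := hh_pos n
  have h1 : (hh n : ℝ) ≤ 1 := by
    rw [hh_coe, div_le_one (by positivity)]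
    linarith [(Nat.cast_nonneg n : (0 : ℝ) ≤ n)]
  have h2 : 0 < 1 - rr ω n := by linarith [rr_lt (by linarith : 0 < ω) n]
  rw [div_le_iff₀ h2]
  have h3 : (hh n : ℝ) + 1 ≤ Real.exp (ω * hh n) := by
    have := Real.add_one_le_exp (ω * (hh n : ℝ))
    nlinarith
  have h4 : rr ω n * Real.exp (ω * hh n) = 1 := by
    rw [rr, ← Real.exp_add]; simp
  have h5 : rr ω n * ((hh n : ℝ) + 1) ≤ 1 := by
    exact (mul_le_mul_of_nonneg_left h3 (rr_pos ω n).le).trans h4.le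
  have h6 := rr_pos ω n
  have h7 : rr ω n * (hh n : ℝ) ≥ 0 := by positivity
  nlinarith

theorem LL_bound {F : ℝ≥0 → ℕ → ℕ → ℕ → ℕ → ℝ} (hF : ∀ h i j k l, |F h i j k l| ≤ 1) (n : ℕ)
    (φ : C(Fin 4 → unitInterval, ℝ)) : |LL F n φ| ≤ 16 * ‖φ‖ := by
  have hup : ∀ G : ℕ → ℕ → ℕ → ℕ → ℝ, (∀ i j k l, G i j k l ≤ ‖φ‖) →
      (hh n : ℝ) ^ 4 * S4 (rr (om 0) n) (rr (om 1) n) (rr (om 2) n) (rr (om 3) n) (NN n) G
        ≤ 16 * ‖φ‖ := by
    intro G hG
    have h1 := S4_mono (rr_pos (om 0) n).le (rr_pos (om 1) n).le (rr_pos (om 2) n).le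
      (rr_pos (om 3) n).le (NN n) (F := G) (G := fun i j k l => ‖φ‖ * (1 * 1 * 1 * 1))
      (fun i j k l => by simpa using hG i j k l)
    rw [S4_smul, S4_prod (f1 := fun _ => 1) (f2 := fun _ => 1) (f3 := fun _ => 1)
      (f4 := fun _ => 1)] at h1
    simp only [mul_one] at h1
    have g : ∀ i : Fin 4, 0 ≤ hh n * ∑ k ∈ range (NN n), rr (om i) n ^ k
        ∧ hh n * ∑ k ∈ range (NN n), rr (om i) n ^ k ≤ 2 := fun i =>
      ⟨mul_nonneg (hh_pos n).le (geom_nonneg (rr_pos _ n).le _),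
        (hG_le (om_pos i) n _).trans (hdiv_le (one_le_om i) n)⟩
    have h2 := mul_le_mul (mul_le_mul (g 0).2 (g 1).2 (g 1).1 (by norm_num))
      (mul_le_mul (g 2).2 (g 3).2 (g 3).1 (by norm_num))
      (mul_nonneg (g 2).1 (g 3).1) (by norm_num)
    calc _ ≤ (hh n : ℝ) ^ 4 * _ := mul_le_mul_of_nonneg_left h1 (pow_nonneg (hh_pos n).le 4)
      _ = ‖φ‖ * ((hh n * ∑ k ∈ range (NN n), rr (om 0) n ^ k)
          * (hh n * ∑ k ∈ range (NN n), rr (om 1) n ^ k)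
          * ((hh n * ∑ k ∈ range (NN n), rr (om 2) n ^ k)
          * (hh n * ∑ k ∈ range (NN n), rr (om 3) n ^ k))) := by ring
      _ ≤ ‖φ‖ * (2 * 2 * (2 * 2)) := mul_le_mul_of_nonneg_left h2 (norm_nonneg _)
      _ = _ := by ring
  have hb : ∀ i j k l, |φ (pt n i j k l) * F (hh n) i j k l| ≤ ‖φ‖ := by
    intro i j k l
    rw [abs_mul]
    have h1 : |φ (pt n i j k l)| ≤ ‖φ‖ := φ.norm_coe_le_norm _
    calc _ ≤ ‖φ‖ * 1 := mul_le_mul h1 (hF _ _ _ _ _) (abs_nonneg _) (norm_nonneg _)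
      _ = _ := mul_one _
  refine abs_le.2 ⟨?_, hup _ fun i j k l => (abs_le.1 (hb i j k l)).2⟩
  have h1 := hup (fun i j k l => (-1) * (φ (pt n i j k l) * F (hh n) i j k l))
    (fun i j k l => by have := (abs_le.1 (hb i j k l)).1; linarith)
  rw [S4_smul] at h1
  unfold LL
  linarith

/-- coordinate functions -/
def coord (i : Fin 4) : C(Fin 4 → unitInterval, ℝ) := ⟨fun x => (x i : ℝ), by fun_prop⟩

/-- monomials -/
def mon (m : Fin 4 → ℕ) : C(Fin 4 → unitInterval, ℝ) := ∏ i, coord i ^ m i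

theorem mon_apply (m : Fin 4 → ℕ) (x : Fin 4 → unitInterval) :
    mon m x = (x 0 : ℝ) ^ m 0 * (x 1 : ℝ) ^ m 1 * (x 2 : ℝ) ^ m 2 * (x 3 : ℝ) ^ m 3 := by
  simp [mon, coord, Fin.prod_univ_four]

theorem exists_mon {x : C(Fin 4 → unitInterval, ℝ)}
    (hx : x ∈ Submonoid.closure (Set.range coord)) : ∃ m, x = mon m := by
  induction hx using Submonoid.closure_induction with
  | mem x hx =>
    obtain ⟨i, rfl⟩ := hx
    refine ⟨Pi.single i 1, ?_⟩
    rw [mon, Finset.prod_eq_single i]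
    · simp
    · intro j _ hj; simp [Pi.single_eq_of_ne hj]
    · simp
  | one => exact ⟨0, by simp [mon]⟩
  | mul x y _ _ hx hy =>
    obtain ⟨m, rfl⟩ := hx
    obtain ⟨m', rfl⟩ := hy
    exact ⟨m + m', by simp [mon, pow_add, Finset.prod_mul_distrib]⟩

theorem rr_pow_succ (ω : ℝ) (n m : ℕ) : rr ω n ^ (m + 1) = rr (ω * ((m : ℝ) + 1)) n := by
  rw [rr, rr, ← Real.exp_nat_mul]
  congr 1
  push_cast
  ring

theorem LL_mon (F : ℝ≥0 → ℕ → ℕ → ℕ → ℕ → ℝ) (n : ℕ) (m : Fin 4 → ℕ) :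
    LL F n (mon m) = QQ (om 0 * ((m 0 : ℝ) + 1)) (om 1 * ((m 1 : ℝ) + 1))
      (om 2 * ((m 2 : ℝ) + 1)) (om 3 * ((m 3 : ℝ) + 1)) F n := by
  unfold LL QQ
  rw [← rr_pow_succ, ← rr_pow_succ, ← rr_pow_succ, ← rr_pow_succ]
  congr 1
  unfold S4
  refine Finset.sum_congr rfl fun i _ => Finset.sum_congr rfl fun j _ =>
    Finset.sum_congr rfl fun k _ => Finset.sum_congr rfl fun l _ => ?_
  beta_reduce
  rw [mon_apply]
  have e0 : ((pt n i j k l 0 : unitInterval) : ℝ) = rr (om 0) n ^ i := by simp [pt, Rk]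
  have e1 : ((pt n i j k l 1 : unitInterval) : ℝ) = rr (om 1) n ^ j := by simp [pt, Rk]
  have e2 : ((pt n i j k l 2 : unitInterval) : ℝ) = rr (om 2) n ^ k := by simp [pt, Rk]
  have e3 : ((pt n i j k l 3 : unitInterval) : ℝ) = rr (om 3) n ^ l := by simp [pt, Rk]
  rw [e0, e1, e2, e3]
  ring

theorem tendsto_LL {F : ℝ≥0 → ℕ → ℕ → ℕ → ℕ → ℝ} (hF : ∀ h i j k l, |F h i j k l| ≤ 1)
    (hmon : ∀ m : Fin 4 → ℕ, Tendsto (fun n => LL F n (mon m)) atTop (𝓝 0))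
    (φ : C(Fin 4 → unitInterval, ℝ)) : Tendsto (fun n => LL F n φ) atTop (𝓝 0) := by
  let A : Subalgebra ℝ C(Fin 4 → unitInterval, ℝ) := Algebra.adjoin ℝ (Set.range coord)
  have hA : ∀ g ∈ A, Tendsto (fun n => LL F n g) atTop (𝓝 0) := by
    intro g hg
    rw [← Subalgebra.mem_toSubmodule, Algebra.adjoin_eq_span] at hg
    induction hg using Submodule.span_induction with
    | mem x hx => obtain ⟨m, rfl⟩ := exists_mon hx; exact hmon m
    | zero =>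
      have : ∀ n, LL F n 0 = 0 := fun n => by
        have := LL_smul F n 0 0
        simpa using this
      simp only [this]
      exact tendsto_const_nhds
    | add x y _ _ hx hy =>
      have := hx.add hy
      simp only [add_zero] at this
      refine this.congr fun n => (LL_add F n x y).symm
    | smul a x _ hx =>
      have := hx.const_mul a
      simp only [mul_zero] at this
      refine this.congr fun n => (LL_smul F n a x).symm
  have hsep : A.SeparatesPoints := by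
    intro x y hxy
    obtain ⟨i, hi⟩ := Function.ne_iff.1 hxy
    refine ⟨coord i, ⟨coord i, Algebra.subset_adjoin ⟨i, rfl⟩, rfl⟩, ?_⟩
    intro h
    exact hi (Subtype.ext h)
  rw [Metric.tendsto_atTop]
  intro ε hε
  obtain ⟨g, hg⟩ := ContinuousMap.exists_mem_subalgebra_near_continuousMap_of_separatesPoints A
    hsep φ (ε / 32) (by positivity)
  obtain ⟨N, hN⟩ := Metric.tendsto_atTop.1 (hA g g.2) (ε / 2) (by positivity)
  refine ⟨N, fun n hn => ?_⟩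
  have h1 := hN n hn
  rw [Real.dist_eq, sub_zero] at h1 ⊢
  have h2 := LL_bound hF n ((g : C(Fin 4 → unitInterval, ℝ)) - φ)
  have h3 : LL F n ((g : C(Fin 4 → unitInterval, ℝ)) - φ) = LL F n g - LL F n φ := by
    have e : ((g : C(Fin 4 → unitInterval, ℝ)) - φ) = g + (-1 : ℝ) • φ := by
      simp [sub_eq_add_neg]
    rw [e, LL_add, LL_smul]; ring
  rw [h3] at h2
  have h4 := abs_le.1 h2
  have h5 := abs_lt.1 h1
  exact abs_lt.2 ⟨by linarith [h4.1, h4.2, h5.1, h5.2], by linarith [h4.1, h4.2, h5.1, h5.2]⟩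

variable {c : ℝ} {p : T × Multiset T → ℝ}

theorem abs_F1 (hp : Reg c p) (h : ℝ≥0) (i j k l : ℕ) : |F1 p h i j k l| ≤ 1 := by
  have h1 := hp.nonneg (gj h i k, {gj h j l})
  have h2 := hp.le_one (gj h i k, {gj h j l})
  have h3 := hp.nonneg (gj h i k, 0)
  have h4 := hp.le_one (gj h i k, 0)
  unfold F1
  exact abs_le.2 ⟨by linarith, by linarith⟩

theorem abs_F2 (hp : Reg c p) (h : ℝ≥0) (i j k l : ℕ) : |F2 p h i j k l| ≤ 1 := by
  have h1 := hp.nonneg (gj h j l, {gj h i k})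
  have h2 := hp.le_one (gj h j l, {gj h i k})
  have h3 := hp.nonneg (gj h j l, 0)
  have h4 := hp.le_one (gj h j l, 0)
  unfold F2
  exact abs_le.2 ⟨by linarith, by linarith⟩

theorem no_resonance (m : Fin 4 → ℕ) : om 1 * ((m 1 : ℝ) + 1) * (om 2 * ((m 2 : ℝ) + 1))
    - om 0 * ((m 0 : ℝ) + 1) * (om 3 * ((m 3 : ℝ) + 1)) ≠ 0 := by
  have e0 : om 0 = √2 := rfl
  have e1 : om 1 = 1 := rfl
  have e2 : om 2 = 1 := rfl
  have e3 : om 3 = 1 := rfl
  rw [e0, e1, e2, e3]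
  intro h
  apply irrational_sqrt_two
  refine ⟨(((m 1 + 1) * (m 2 + 1) : ℕ) : ℚ) / (((m 0 + 1) * (m 3 + 1) : ℕ) : ℚ), ?_⟩
  push_cast
  field_simp
  linarith

theorem tendsto_F1 (hp : Reg c p) (φ : C(Fin 4 → unitInterval, ℝ)) :
    Tendsto (fun n => LL (F1 p) n φ) atTop (𝓝 0) := by
  refine tendsto_LL (abs_F1 hp) (fun m => ?_) φ
  simp only [LL_mon]
  exact (tendsto_Q hp (mul_pos (om_pos _) (by positivity)) (mul_pos (om_pos _) (by positivity))
    (mul_pos (om_pos _) (by positivity)) (mul_pos (om_pos _) (by positivity))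
    (no_resonance m)).1

theorem tendsto_F2 (hp : Reg c p) (φ : C(Fin 4 → unitInterval, ℝ)) :
    Tendsto (fun n => LL (F2 p) n φ) atTop (𝓝 0) := by
  refine tendsto_LL (abs_F2 hp) (fun m => ?_) φ
  simp only [LL_mon]
  exact (tendsto_Q hp (mul_pos (om_pos _) (by positivity)) (mul_pos (om_pos _) (by positivity))
    (mul_pos (om_pos _) (by positivity)) (mul_pos (om_pos _) (by positivity))
    (no_resonance m)).2

end

end Pool.Agent.Lib.MP_2c6a66_lc.LB
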