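import Pool.Agent.Lib.MP_2c6a66_lc.LB.Sym

/-! A Markov-Kakutani theorem for precomposition operators, and its application to anonymous
families. -/

namespace Pool.Agent.Lib.MP_2c6a66_lc.LB

open scoped NNReal
open Finset

noncomputable section

section generic

variable {Ω I : Type*}

/-- Cesaro average along `φ` -/
def avg (φ : Ω → Ω) (n : ℕ) (z : Ω → ℝ) : Ω → ℝ :=
  ∑ j ∈ range (n + 1), (1 / ((n : ℝ) + 1)) • (z ∘ φ^[j])

theorem avg_apply (φ : Ω → Ω) (n : ℕ) (z : Ω → ℝ) (ω : Ω) :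
    avg φ n z ω = (1 / ((n : ℝ) + 1)) * ∑ j ∈ range (n + 1), z (φ^[j] ω) := by
  simp [avg, Finset.sum_apply, Finset.mul_sum]

theorem precomp_fixed (K : Set (Ω → ℝ)) (hK : IsCompact K) (hconv : Convex ℝ K)
    (hne : K.Nonempty) (h01 : ∀ z ∈ K, ∀ ω, 0 ≤ z ω ∧ z ω ≤ 1) (φ : I → Ω → Ω)
    (hinv : ∀ i, ∀ z ∈ K, z ∘ φ i ∈ K) (hcomm : ∀ i j ω, φ i (φ j ω) = φ j (φ i ω)) :
    ∃ z ∈ K, ∀ i, z ∘ φ i = z := by
  classical
  let F : I × ℕ → Set (Ω → ℝ) := fun q => {z | ∀ ω, |z (φ q.1 ω) - z ω| ≤ 1 / ((q.2 : ℝ) + 1)}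
  have hFc : ∀ q, IsClosed (F q) := by
    intro q
    simp only [F, Set.ofPred_forall]
    refine isClosed_iInter fun ω => isClosed_le ?_ continuous_const
    fun_prop
  have hit : ∀ (i : I) (z : Ω → ℝ), z ∈ K → ∀ j, z ∘ (φ i)^[j] ∈ K := by
    intro i z hz j
    induction j with
    | zero => simpa using hz
    | succ j ih =>
      have := hinv i _ ih
      rwa [Function.comp_assoc, ← Function.iterate_succ] at this
  have havK : ∀ (i : I) (n : ℕ) (z : Ω → ℝ), z ∈ K → avg (φ i) n z ∈ K := by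
    intro i n z hz
    have hn : (0 : ℝ) < (n : ℝ) + 1 := by positivity
    refine hconv.sum_mem (fun j _ => by positivity) ?_ (fun j _ => hit i z hz j)
    rw [Finset.sum_const, card_range, nsmul_eq_mul]
    push_cast
    field_simp
  have hself : ∀ (i : I) (n : ℕ) (z : Ω → ℝ), z ∈ K → avg (φ i) n z ∈ F (i, n) := by
    intro i n z hz ω
    have hn : (0 : ℝ) < (n : ℝ) + 1 := by positivity
    rw [avg_apply, avg_apply, ← mul_sub, ← Finset.sum_sub_distrib]
    have e : ∀ j, z ((φ i)^[j] (φ i ω)) - z ((φ i)^[j] ω)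
        = z ((φ i)^[j + 1] ω) - z ((φ i)^[j] ω) := by
      intro j
      rw [Function.iterate_succ_apply]
    simp only [e]
    rw [Finset.sum_range_sub (fun j => z ((φ i)^[j] ω)), abs_mul, abs_of_pos (by positivity)]
    have h1 := h01 z hz ((φ i)^[n + 1] ω)
    have h2 := h01 z hz ((φ i)^[0] ω)
    have : |z ((φ i)^[n + 1] ω) - z ((φ i)^[0] ω)| ≤ 1 := abs_le.2 ⟨by linarith, by linarith⟩
    calc _ ≤ 1 / ((n : ℝ) + 1) * 1 := mul_le_mul_of_nonneg_left this (by positivity)
      _ = _ := by simp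
  have hpres : ∀ (i : I) (n : ℕ) (q : I × ℕ) (z : Ω → ℝ), z ∈ F q → avg (φ i) n z ∈ F q := by
    intro i n q z hz ω
    have hn : (0 : ℝ) < (n : ℝ) + 1 := by positivity
    have hc : ∀ j, (φ i)^[j] (φ q.1 ω) = φ q.1 ((φ i)^[j] ω) := by
      intro j
      induction j with
      | zero => rfl
      | succ j ih =>
        rw [Function.iterate_succ_apply', Function.iterate_succ_apply', ih, hcomm]
    rw [avg_apply, avg_apply, ← mul_sub, ← Finset.sum_sub_distrib, abs_mul,
      abs_of_pos (by positivity)]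
    have h1 : |∑ j ∈ range (n + 1), (z ((φ i)^[j] (φ q.1 ω)) - z ((φ i)^[j] ω))|
        ≤ ∑ j ∈ range (n + 1), 1 / ((q.2 : ℝ) + 1) := by
      refine (Finset.abs_sum_le_sum_abs _ _).trans (Finset.sum_le_sum fun j _ => ?_)
      rw [hc]
      exact hz _
    rw [Finset.sum_const, card_range, nsmul_eq_mul] at h1
    calc _ ≤ 1 / ((n : ℝ) + 1) * (((n + 1 : ℕ) : ℝ) * (1 / ((q.2 : ℝ) + 1))) :=
          mul_le_mul_of_nonneg_left h1 (by positivity)
      _ = _ := by push_cast; field_simp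
  have hfin : ∀ u : Finset (I × ℕ), (K ∩ ⋂ q ∈ u, F q).Nonempty := by
    intro u
    induction u using Finset.induction_on with
    | empty => simpa using hne
    | insert q u _ ih =>
      obtain ⟨z, hz, hzu⟩ := ih
      refine ⟨avg (φ q.1) q.2 z, havK _ _ _ hz, ?_⟩
      simp only [Set.mem_iInter] at hzu ⊢
      intro q' hq'
      rcases Finset.mem_insert.1 hq' with rfl | h
      · exact hself _ _ _ hz
      · exact hpres _ _ _ _ (hzu q' h)
  obtain ⟨z, hz, hzF⟩ := hK.inter_iInter_nonempty F hFc hfin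
  refine ⟨z, hz, fun i => ?_⟩
  funext ω
  have h : ∀ n : ℕ, |z (φ i ω) - z ω| ≤ 1 / ((n : ℝ) + 1) := by
    intro n
    have := Set.mem_iInter.1 hzF (i, n)
    exact this ω
  have h0 : |z (φ i ω) - z ω| ≤ 0 := by
    refine ge_of_tendsto' tendsto_one_div_add_atTop_nhds_zero_nat h
  have := abs_nonpos_iff.1 h0
  simp only [Function.comp]
  linarith

end generic

section fam

variable {c : ℝ}

/-- the set of anonymous families -/
def KF (c : ℝ) : Set (T × Multiset T → ℝ) := {p | Fam c p}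

theorem convex_KF : Convex ℝ (KF c) := by
  intro p hp q hq α β hα hβ hαβ
  obtain ⟨V, hV⟩ := hp.exV
  obtain ⟨V', hV'⟩ := hq.exV
  obtain ⟨Y, hY⟩ := hp.exY
  obtain ⟨Y', hY'⟩ := hq.exY
  have e : ∀ ω, (α • p + β • q) ω = α * p ω + β * q ω := fun ω => by simp
  refine ⟨fun ω => ?_, fun ω => ?_, ⟨fun m => α * V m + β * V' m, ?_⟩,
    ⟨fun m => α * Y m + β * Y' m, ?_⟩, ?_, ?_⟩
  · rw [e]
    have := hp.nonneg ω
    have := hq.nonneg ω
    positivity
  · rw [e]
    nlinarith [hp.le_one ω, hq.le_one ω]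
  · intro a a' b m
    rw [e]
    have h1 := mul_le_mul_of_nonneg_left (hV a a' b m) hα
    have h2 := mul_le_mul_of_nonneg_left (hV' a a' b m) hβ
    linarith
  · intro a b b' m
    rw [e]
    have h1 := mul_le_mul_of_nonneg_left (hY a b b' m) hα
    have h2 := mul_le_mul_of_nonneg_left (hY' a b b' m) hβ
    have e3 : ((b' : ℝ) - b) * (1 - (α * p ((a, b'), m) + β * q ((a, b'), m)))
        = α * (((b' : ℝ) - b) * (1 - p ((a, b'), m)))
          + β * (((b' : ℝ) - b) * (1 - q ((a, b'), m))) := by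
      have : β = 1 - α := by linarith
      rw [this]; ring
    rw [e3]
    linarith
  · intro s t m hm
    rw [e, e]
    have h1 := mul_le_mul_of_nonneg_left (hp.cost s t m hm) hα
    have h2 := mul_le_mul_of_nonneg_left (hq.cost s t m hm) hβ
    have : β = 1 - α := by linarith
    rw [this] at h2 ⊢
    linarith
  · intro s t m hm
    rw [e, e]
    have h1 := mul_le_mul_of_nonneg_left (hp.cost' s t m hm) hα
    have h2 := mul_le_mul_of_nonneg_left (hq.cost' s t m hm) hβ
    have : β = 1 - α := by linarith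
    rw [this] at h2 ⊢
    linarith

/-- total time on machine 0 -/
def sum0 (m : Multiset T) : ℝ := (m.map fun t => (t.1 : ℝ)).sum

/-- total time on machine 1 -/
def sum1 (m : Multiset T) : ℝ := (m.map fun t => (t.2 : ℝ)).sum

/-- compact version with normalised potentials -/
def KN (c : ℝ) : Set ((T × Multiset T → ℝ) × (Multiset T → ℝ) × (Multiset T → ℝ)) :=
  {z | (z.1 ∈ Set.pi Set.univ fun _ => Set.Icc 0 1)
    ∧ (z.2.1 ∈ Set.pi Set.univ fun m => Set.Icc (-sum0 m) 0)
    ∧ (z.2.2 ∈ Set.pi Set.univ fun m => Set.Icc (-sum1 m) 0)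
    ∧ (∀ (a a' b : ℝ≥0) (m : Multiset T),
      z.2.1 ((a', b) ::ₘ m) + ((a' : ℝ) - a) * z.1 ((a', b), m) ≤ z.2.1 ((a, b) ::ₘ m))
    ∧ (∀ (a b b' : ℝ≥0) (m : Multiset T),
      z.2.2 ((a, b') ::ₘ m) + ((b' : ℝ) - b) * (1 - z.1 ((a, b'), m)) ≤ z.2.2 ((a, b) ::ₘ m))
    ∧ (∀ (s t : T) (m : Multiset T), (∀ ν ∈ m, Null ν) →
      min (s.1 : ℝ) t.2 + t.1 * z.1 (t, s ::ₘ m)
        + ((s.2 : ℝ) - t.2 - t.1) * (1 - z.1 (s, t ::ₘ m)) ≤ c * max (s.1 : ℝ) t.2)
    ∧ (∀ (s t : T) (m : Multiset T), (∀ ν ∈ m, Null ν) →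
      min (s.1 : ℝ) t.2 + s.2 * (1 - z.1 (s, t ::ₘ m))
        + ((t.1 : ℝ) - s.1 - s.2) * z.1 (t, s ::ₘ m) ≤ c * max (s.1 : ℝ) t.2)}

theorem isCompact_KN : IsCompact (KN c) := by
  have hcpt : IsCompact ((Set.pi Set.univ fun _ => Set.Icc 0 1 :
      Set (T × Multiset T → ℝ)) ×ˢ ((Set.pi Set.univ fun m => Set.Icc (-sum0 m) 0 :
      Set (Multiset T → ℝ)) ×ˢ (Set.pi Set.univ fun m => Set.Icc (-sum1 m) 0 :
      Set (Multiset T → ℝ)))) :=
    (isCompact_univ_pi fun _ => isCompact_Icc).prod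
      ((isCompact_univ_pi fun _ => isCompact_Icc).prod (isCompact_univ_pi fun _ => isCompact_Icc))
  have hclosed : IsClosed {z : (T × Multiset T → ℝ) × (Multiset T → ℝ) × (Multiset T → ℝ) |
      (∀ (a a' b : ℝ≥0) (m : Multiset T),
      z.2.1 ((a', b) ::ₘ m) + ((a' : ℝ) - a) * z.1 ((a', b), m) ≤ z.2.1 ((a, b) ::ₘ m))
    ∧ (∀ (a b b' : ℝ≥0) (m : Multiset T),
      z.2.2 ((a, b') ::ₘ m) + ((b' : ℝ) - b) * (1 - z.1 ((a, b'), m)) ≤ z.2.2 ((a, b) ::ₘ m))
    ∧ (∀ (s t : T) (m : Multiset T), (∀ ν ∈ m, Null ν) →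
      min (s.1 : ℝ) t.2 + t.1 * z.1 (t, s ::ₘ m)
        + ((s.2 : ℝ) - t.2 - t.1) * (1 - z.1 (s, t ::ₘ m)) ≤ c * max (s.1 : ℝ) t.2)
    ∧ (∀ (s t : T) (m : Multiset T), (∀ ν ∈ m, Null ν) →
      min (s.1 : ℝ) t.2 + s.2 * (1 - z.1 (s, t ::ₘ m))
        + ((t.1 : ℝ) - s.1 - s.2) * z.1 (t, s ::ₘ m) ≤ c * max (s.1 : ℝ) t.2)} := by
    simp only [Set.ofPred_and, Set.ofPred_forall]
    refine IsClosed.inter ?_ (IsClosed.inter ?_ (IsClosed.inter ?_ ?_))
    · refine isClosed_iInter fun a => isClosed_iInter fun a' => isClosed_iInter fun b =>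
        isClosed_iInter fun m => isClosed_le ?_ ?_ <;> fun_prop
    · refine isClosed_iInter fun a => isClosed_iInter fun a' => isClosed_iInter fun b =>
        isClosed_iInter fun m => isClosed_le ?_ ?_ <;> fun_prop
    · refine isClosed_iInter fun s => isClosed_iInter fun t => isClosed_iInter fun m =>
        isClosed_iInter fun _ => isClosed_le ?_ ?_ <;> fun_prop
    · refine isClosed_iInter fun s => isClosed_iInter fun t => isClosed_iInter fun m =>
        isClosed_iInter fun _ => isClosed_le ?_ ?_ <;> fun_prop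
  have e : KN c = _ ∩ _ := rfl
  have := hcpt.inter_right hclosed
  convert this using 1
  ext z
  simp only [KN, Set.mem_ofPred_eq, Set.mem_inter_iff, Set.mem_prod, and_assoc]

theorem sum0_cons (t : T) (m : Multiset T) : sum0 (t ::ₘ m) = t.1 + sum0 m := by
  simp [sum0]

theorem sum1_cons (t : T) (m : Multiset T) : sum1 (t ::ₘ m) = t.2 + sum1 m := by
  simp [sum1]

/-- all times on machine 0 set to zero -/
def z0 (m : Multiset T) : Multiset T := m.map fun t => (0, t.2)

/-- all times on machine 1 set to zero -/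
def z1 (m : Multiset T) : Multiset T := m.map fun t => (t.1, 0)

theorem normV {p : T × Multiset T → ℝ} (h0 : ∀ ω, 0 ≤ p ω) (h1 : ∀ ω, p ω ≤ 1)
    {V : Multiset T → ℝ} (hV : ∀ (a a' b : ℝ≥0) (m : Multiset T),
    V ((a', b) ::ₘ m) + ((a' : ℝ) - a) * p ((a', b), m) ≤ V ((a, b) ::ₘ m)) (m : Multiset T) :
    ∀ k : Multiset T, V (m + k) - V (z0 m + k) ∈ Set.Icc (-sum0 m) 0 := by
  induction m using Multiset.induction_on with
  | empty => intro k; simp [z0, sum0]
  | cons t m ih =>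
    intro k
    have hI := ih ((0, t.2) ::ₘ k)
    rw [Multiset.add_cons, Multiset.add_cons] at hI
    have e1 : z0 (t ::ₘ m) = (0, t.2) ::ₘ z0 m := by simp [z0]
    rw [e1, Multiset.cons_add, Multiset.cons_add, sum0_cons]
    have hA := hV 0 t.1 t.2 (m + k)
    have hB := hV t.1 0 t.2 (m + k)
    have ha : (0 : ℝ) ≤ t.1 := NNReal.coe_nonneg _
    have p1 := mul_nonneg ha (h0 ((t.1, t.2), m + k))
    have p2 := mul_le_mul_of_nonneg_left (h1 ((0, t.2), m + k)) ha
    simp only [NNReal.coe_zero, sub_zero, zero_sub] at hA hB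
    have et : ((t.1, t.2) : T) = t := rfl
    rw [et] at hA hB p1
    obtain ⟨i1, i2⟩ := hI
    constructor <;> linarith

theorem normY {p : T × Multiset T → ℝ} (h0 : ∀ ω, 0 ≤ p ω) (h1 : ∀ ω, p ω ≤ 1)
    {Y : Multiset T → ℝ} (hY : ∀ (a b b' : ℝ≥0) (m : Multiset T),
    Y ((a, b') ::ₘ m) + ((b' : ℝ) - b) * (1 - p ((a, b'), m)) ≤ Y ((a, b) ::ₘ m))
    (m : Multiset T) :
    ∀ k : Multiset T, Y (m + k) - Y (z1 m + k) ∈ Set.Icc (-sum1 m) 0 := by
  induction m using Multiset.induction_on with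
  | empty => intro k; simp [z1, sum1]
  | cons t m ih =>
    intro k
    have hI := ih ((t.1, 0) ::ₘ k)
    rw [Multiset.add_cons, Multiset.add_cons] at hI
    have e1 : z1 (t ::ₘ m) = (t.1, 0) ::ₘ z1 m := by simp [z1]
    rw [e1, Multiset.cons_add, Multiset.cons_add, sum1_cons]
    have hA := hY t.1 0 t.2 (m + k)
    have hB := hY t.1 t.2 0 (m + k)
    have ha : (0 : ℝ) ≤ t.2 := NNReal.coe_nonneg _
    have p1 := mul_nonneg ha (sub_nonneg.2 (h1 ((t.1, t.2), m + k)))
    have p2 := mul_nonneg ha (h0 ((t.1, 0), m + k))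
    simp only [NNReal.coe_zero, sub_zero, zero_sub] at hA hB
    have et : ((t.1, t.2) : T) = t := rfl
    rw [et] at hA hB p1
    obtain ⟨i1, i2⟩ := hI
    constructor <;> linarith

theorem KF_eq_image : KF c = Prod.fst '' KN c := by
  ext p
  constructor
  · intro hp
    obtain ⟨V, hV⟩ := hp.exV
    obtain ⟨Y, hY⟩ := hp.exY
    refine ⟨(p, fun m => V m - V (z0 m), fun m => Y m - Y (z1 m)), ⟨?_, ?_, ?_, ?_, ?_, ?_, ?_⟩,
      rfl⟩
    · exact fun ω _ => ⟨hp.nonneg ω, hp.le_one ω⟩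
    · intro m _
      have := normV hp.nonneg hp.le_one hV m 0
      simpa using this
    · intro m _
      have := normY hp.nonneg hp.le_one hY m 0
      simpa using this
    · intro a a' b m
      have := hV a a' b m
      have e : z0 ((a', b) ::ₘ m) = z0 ((a, b) ::ₘ m) := by simp [z0]
      dsimp only
      rw [e]
      linarith
    · intro a b b' m
      have := hY a b b' m
      have e : z1 ((a, b') ::ₘ m) = z1 ((a, b) ::ₘ m) := by simp [z1]
      dsimp only
      rw [e]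
      linarith
    · exact hp.cost
    · exact hp.cost'
  · rintro ⟨⟨q, V, Y⟩, ⟨h1, h2, h3, h4, h5, h6, h7⟩, rfl⟩
    exact ⟨fun ω => (h1 ω trivial).1, fun ω => (h1 ω trivial).2, ⟨V, h4⟩, ⟨Y, h5⟩, h6, h7⟩

theorem isCompact_KF : IsCompact (KF c) := by
  rw [KF_eq_image]
  exact isCompact_KN.image continuous_fst

/-- adding a job -/
def addJob (ν : T) (ω : T × Multiset T) : T × Multiset T := (ω.1, ν ::ₘ ω.2)

/-- scaling a job -/
def scT (μ : ℝ≥0) (t : T) : T := (μ * t.1, μ * t.2)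

/-- scaling an instance -/
def sc (μ : ℝ≥0) (ω : T × Multiset T) : T × Multiset T := (scT μ ω.1, ω.2.map (scT μ))

theorem fam_addJob {p : T × Multiset T → ℝ} (hp : Fam c p) {ν : T} (hν : Null ν) :
    Fam c (p ∘ addJob ν) := by
  obtain ⟨V, hV⟩ := hp.exV
  obtain ⟨Y, hY⟩ := hp.exY
  refine ⟨fun ω => hp.nonneg _, fun ω => hp.le_one _, ⟨fun m => V (ν ::ₘ m), ?_⟩,
    ⟨fun m => Y (ν ::ₘ m), ?_⟩, ?_, ?_⟩
  · intro a a' b m
    have := hV a a' b (ν ::ₘ m)
    rw [Multiset.cons_swap (a', b) ν m, Multiset.cons_swap (a, b) ν m] at this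
    exact this
  · intro a b b' m
    have := hY a b b' (ν ::ₘ m)
    rw [Multiset.cons_swap (a, b') ν m, Multiset.cons_swap (a, b) ν m] at this
    exact this
  · intro s t m hm
    have := hp.cost s t (ν ::ₘ m) (by
      intro ν' h
      rcases Multiset.mem_cons.1 h with rfl | h
      · exact hν
      · exact hm _ h)
    rw [Multiset.cons_swap s, Multiset.cons_swap t] at this
    exact this
  · intro s t m hm
    have := hp.cost' s t (ν ::ₘ m) (by
      intro ν' h
      rcases Multiset.mem_cons.1 h with rfl | h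
      · exact hν
      · exact hm _ h)
    rw [Multiset.cons_swap s, Multiset.cons_swap t] at this
    exact this

theorem null_scT {μ : ℝ≥0} {ν : T} (h : Null ν) : Null (scT μ ν) := by
  rcases h with h | h
  · left; simp [scT, h]
  · right; simp [scT, h]

theorem fam_sc {p : T × Multiset T → ℝ} (hp : Fam c p) {μ : ℝ≥0} (hμ : 0 < μ) :
    Fam c (p ∘ sc μ) := by
  obtain ⟨V, hV⟩ := hp.exV
  obtain ⟨Y, hY⟩ := hp.exY
  have hμ' : (0 : ℝ) < μ := by exact_mod_cast hμ
  refine ⟨fun ω => hp.nonneg _, fun ω => hp.le_one _, ⟨fun m => V (m.map (scT μ)) / μ, ?_⟩,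
    ⟨fun m => Y (m.map (scT μ)) / μ, ?_⟩, ?_, ?_⟩
  · intro a a' b m
    have := hV (μ * a) (μ * a') (μ * b) (m.map (scT μ))
    dsimp only
    rw [Multiset.map_cons, Multiset.map_cons, le_div_iff₀ hμ', add_mul, div_mul_cancel₀ _ hμ'.ne']
    simp only [Function.comp, sc, scT] at this ⊢
    push_cast at this
    linarith
  · intro a b b' m
    have := hY (μ * a) (μ * b) (μ * b') (m.map (scT μ))
    dsimp only
    rw [Multiset.map_cons, Multiset.map_cons, le_div_iff₀ hμ', add_mul, div_mul_cancel₀ _ hμ'.ne']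
    simp only [Function.comp, sc, scT] at this ⊢
    push_cast at this
    linarith
  · intro s t m hm
    have := hp.cost (scT μ s) (scT μ t) (m.map (scT μ)) (by
      intro ν' h
      obtain ⟨ν, hν, rfl⟩ := Multiset.mem_map.1 h
      exact null_scT (hm _ hν))
    have e1 : min ((scT μ s).1 : ℝ) (scT μ t).2 = μ * min (s.1 : ℝ) t.2 := by
      simp only [scT]; push_cast; rw [mul_min_of_nonneg _ _ hμ'.le]
    have e2 : max ((scT μ s).1 : ℝ) (scT μ t).2 = μ * max (s.1 : ℝ) t.2 := by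
      simp only [scT]; push_cast; rw [mul_max_of_nonneg _ _ hμ'.le]
    rw [e1, e2] at this
    refine le_of_mul_le_mul_left ?_ hμ'
    simp only [Function.comp, sc, Multiset.map_cons]
    simp only [scT, NNReal.coe_mul] at this ⊢
    linarith
  · intro s t m hm
    have := hp.cost' (scT μ s) (scT μ t) (m.map (scT μ)) (by
      intro ν' h
      obtain ⟨ν, hν, rfl⟩ := Multiset.mem_map.1 h
      exact null_scT (hm _ hν))
    have e1 : min ((scT μ s).1 : ℝ) (scT μ t).2 = μ * min (s.1 : ℝ) t.2 := by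
      simp only [scT]; push_cast; rw [mul_min_of_nonneg _ _ hμ'.le]
    have e2 : max ((scT μ s).1 : ℝ) (scT μ t).2 = μ * max (s.1 : ℝ) t.2 := by
      simp only [scT]; push_cast; rw [mul_max_of_nonneg _ _ hμ'.le]
    rw [e1, e2] at this
    refine le_of_mul_le_mul_left ?_ hμ'
    simp only [Function.comp, sc, Multiset.map_cons]
    simp only [scT, NNReal.coe_mul] at this ⊢
    linarith

/-- exchange of the machines -/
def sw (p : T × Multiset T → ℝ) : T × Multiset T → ℝ :=
  fun ω => 1 - p (ω.1.swap, ω.2.map Prod.swap)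

theorem null_swap {ν : T} (h : Null ν) : Null ν.swap := by
  rcases h with h | h
  · right; exact h
  · left; exact h

theorem fam_sw {p : T × Multiset T → ℝ} (hp : Fam c p) : Fam c (sw p) := by
  obtain ⟨V, hV⟩ := hp.exV
  obtain ⟨Y, hY⟩ := hp.exY
  refine ⟨fun ω => ?_, fun ω => ?_, ⟨fun m => Y (m.map Prod.swap), ?_⟩,
    ⟨fun m => V (m.map Prod.swap), ?_⟩, ?_, ?_⟩
  · have := hp.le_one (ω.1.swap, ω.2.map Prod.swap)
    simp only [sw]; linarith
  · have := hp.nonneg (ω.1.swap, ω.2.map Prod.swap)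
    simp only [sw]; linarith
  · intro a a' b m
    have := hY b a a' (m.map Prod.swap)
    simpa [sw] using this
  · intro a b b' m
    have := hV b b' a (m.map Prod.swap)
    simpa [sw] using this
  · intro s t m hm
    have := hp.cost' t.swap s.swap (m.map Prod.swap) (by
      intro ν' h
      obtain ⟨ν, hν, rfl⟩ := Multiset.mem_map.1 h
      exact null_swap (hm _ hν))
    simp only [Prod.fst_swap, Prod.snd_swap] at this
    simp only [sw, Multiset.map_cons]
    rw [min_comm, max_comm]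
    linarith
  · intro s t m hm
    have := hp.cost t.swap s.swap (m.map Prod.swap) (by
      intro ν' h
      obtain ⟨ν, hν, rfl⟩ := Multiset.mem_map.1 h
      exact null_swap (hm _ hν))
    simp only [Prod.fst_swap, Prod.snd_swap] at this
    simp only [sw, Multiset.map_cons]
    rw [min_comm, max_comm]
    linarith

/-- The regular family: null jobs irrelevant, scale invariant, symmetric. -/
structure Reg (c : ℝ) (p : T × Multiset T → ℝ) : Prop extends Fam c p where
  null : ∀ (ν t : T) (m : Multiset T), Null ν → p (t, ν ::ₘ m) = p (t, m)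
  scale : ∀ (μ : ℝ≥0) (t : T) (m : Multiset T), 0 < μ → p (scT μ t, m.map (scT μ)) = p (t, m)
  symm : ∀ (t : T) (m : Multiset T), p (t.swap, m.map Prod.swap) = 1 - p (t, m)

theorem exists_reg (h : ∃ p, Fam c p) : ∃ p, Reg c p := by
  obtain ⟨p0, hp0⟩ := h
  -- null jobs
  let K2 : Set (T × Multiset T → ℝ) := KF c ∩ {p | ∀ ν : {ν : T // Null ν}, p ∘ addJob ν = p}
  have hne : K2.Nonempty := by
    obtain ⟨p, hp, h⟩ := precomp_fixed (KF c) isCompact_KF convex_KF ⟨p0, hp0⟩
      (fun p hp ω => ⟨hp.nonneg ω, hp.le_one ω⟩) (fun ν : {ν : T // Null ν} => addJob ν)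
      (fun ν p hp => fam_addJob hp ν.2) (fun ν ν' ω => by
        simp only [addJob, Multiset.cons_swap])
    exact ⟨p, hp, h⟩
  have hclosed : IsClosed {p : T × Multiset T → ℝ | ∀ ν : {ν : T // Null ν},
      p ∘ addJob ν = p} := by
    simp only [Set.ofPred_forall]
    refine isClosed_iInter fun ν => isClosed_eq ?_ continuous_id
    exact continuous_pi fun ω => continuous_apply _
  have hcpt : IsCompact K2 := isCompact_KF.inter_right hclosed
  have hconv : Convex ℝ K2 := by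
    refine convex_KF.inter ?_
    intro p hp q hq α β _ _ _ ν
    have h1 := hp ν
    have h2 := hq ν
    funext ω
    have e1 := congrFun h1 ω
    have e2 := congrFun h2 ω
    simp only [Function.comp, Pi.add_apply, Pi.smul_apply] at e1 e2 ⊢
    rw [e1, e2]
  obtain ⟨p1, hp1, hs1⟩ := precomp_fixed K2 hcpt hconv hne
    (fun p hp ω => ⟨hp.1.nonneg ω, hp.1.le_one ω⟩) (fun μ : {μ : ℝ≥0 // 0 < μ} => sc μ)
    (fun μ p hp => by
      refine ⟨fam_sc hp.1 μ.2, fun ν => ?_⟩
      funext ω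
      have := congrFun (hp.2 ⟨scT μ ν, null_scT ν.2⟩) (sc μ ω)
      simp only [Function.comp, addJob, sc, Multiset.map_cons] at this ⊢
      exact this)
    (fun μ μ' ω => by
      have hT : ∀ t : T, scT μ (scT μ' t) = scT μ' (scT μ t) := by
        intro t; simp only [scT]; ext <;> push_cast <;> ring
      simp only [sc, Multiset.map_map, Function.comp_def, hT])
  refine ⟨(1 / 2 : ℝ) • p1 + (1 / 2 : ℝ) • sw p1, convex_KF hp1.1 (fam_sw hp1.1)
    (by norm_num) (by norm_num) (by norm_num), ?_, ?_, ?_⟩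
  · intro ν t m hν
    have h1 := congrFun (hp1.2 ⟨ν, hν⟩) (t, m)
    have h2 := congrFun (hp1.2 ⟨ν.swap, null_swap hν⟩) (t.swap, m.map Prod.swap)
    simp only [Function.comp, addJob] at h1 h2
    simp only [Pi.add_apply, Pi.smul_apply, sw, Multiset.map_cons, h1, h2]
  · intro μ t m hμ
    have h1 := congrFun (hs1 ⟨μ, hμ⟩) (t, m)
    have h2 := congrFun (hs1 ⟨μ, hμ⟩) (t.swap, m.map Prod.swap)
    simp only [Function.comp, sc, Multiset.map_map] at h1 h2
    simp only [Pi.add_apply, Pi.smul_apply, sw, h1, Multiset.map_map]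
    exact congrArg (fun x => (1 / 2 : ℝ) • p1 (t, m) + (1 / 2 : ℝ) • (1 - x)) h2
  · intro t m
    have : (m.map Prod.swap).map Prod.swap = m := by
      simp [Multiset.map_map]
    simp only [Pi.add_apply, Pi.smul_apply, sw, Prod.swap_swap, this, smul_eq_mul]
    ring

end fam

end

end Pool.Agent.Lib.MP_2c6a66_lc.LB
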