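import Pool.Agent.Lib.MP_2c6a66_lc.LB.Fixed
import Pool.Agent.Lib.MP_2c6a66_lc.LB.Abel

/-! The discrete Laplace transform of the interaction of two jobs tends to zero. -/

namespace Pool.Agent.Lib.MP_2c6a66_lc.LB

open scoped NNReal Topology
open Finset Filter

noncomputable section

variable {c : ℝ} {p : T × Multiset T → ℝ}

/-- a grid job -/
def gj (h : ℝ≥0) (i k : ℕ) : T := ((i : ℝ≥0) * h, (k : ℝ≥0) * h)

/-- interaction, first job -/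
def F1 (p : T × Multiset T → ℝ) (h : ℝ≥0) (i j k l : ℕ) : ℝ :=
  p (gj h i k, {gj h j l}) - p (gj h i k, 0)

/-- interaction, second job -/
def F2 (p : T × Multiset T → ℝ) (h : ℝ≥0) (i j k l : ℕ) : ℝ :=
  p (gj h j l, {gj h i k}) - p (gj h j l, 0)

/-- four dimensional weighted sum -/
def S4 (r1 r2 r3 r4 : ℝ) (N : ℕ) (F : ℕ → ℕ → ℕ → ℕ → ℝ) : ℝ :=
  ∑ i ∈ range N, ∑ j ∈ range N, ∑ k ∈ range N, ∑ l ∈ range N,
    (r1 ^ i * r2 ^ j) * (r3 ^ k * r4 ^ l) * F i j k l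

theorem null_gj0 (h : ℝ≥0) (k : ℕ) : Null (gj h 0 k) := by left; simp [gj]

theorem null_gj0' (h : ℝ≥0) (i : ℕ) : Null (gj h i 0) := by right; simp [gj]

theorem latA (hp : Reg c p) {V : Multiset T → ℝ} (hV : ∀ (a a' b : ℝ≥0) (m : Multiset T),
    V ((a', b) ::ₘ m) + ((a' : ℝ) - a) * p ((a', b), m) ≤ V ((a, b) ::ₘ m)) (h : ℝ≥0)
    (k l : ℕ) :
    Lat h (fun i j => V (gj h i k ::ₘ {gj h j l})) (fun i j => p (gj h i k, {gj h j l}))
      (fun i j => p (gj h j l, {gj h i k})) (fun i => p (gj h i k, 0))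
      (fun j => p (gj h j l, 0)) := by
  have hsw : ∀ t s : T, V (t ::ₘ {s}) = V (s ::ₘ {t}) := by
    intro t s
    rw [← Multiset.cons_zero s, Multiset.cons_swap, Multiset.cons_zero]
  refine ⟨fun i j => hp.nonneg _, fun i j => hp.le_one _, fun i j => hp.nonneg _,
    fun i j => hp.le_one _, ?_, ?_, ?_, ?_, ?_, ?_⟩
  · intro i j
    have := hV ((i : ℝ≥0) * h) (((i + 1 : ℕ) : ℝ≥0) * h) ((k : ℝ≥0) * h) {gj h j l}
    have e : ((((i + 1 : ℕ) : ℝ≥0) * h : ℝ≥0) : ℝ) - (((i : ℝ≥0) * h : ℝ≥0) : ℝ) = h := by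
      push_cast; ring
    rw [e] at this
    exact this
  · intro i j
    have := hV (((i + 1 : ℕ) : ℝ≥0) * h) ((i : ℝ≥0) * h) ((k : ℝ≥0) * h) {gj h j l}
    have e : (((i : ℝ≥0) * h : ℝ≥0) : ℝ) - ((((i + 1 : ℕ) : ℝ≥0) * h : ℝ≥0) : ℝ) = -h := by
      push_cast; ring
    rw [e] at this
    have e2 : V (gj h i k ::ₘ {gj h j l}) + -(h : ℝ) * p (gj h i k, {gj h j l})
      ≤ V (gj h (i + 1) k ::ₘ {gj h j l}) := this
    linarith
  · intro i j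
    have := hV ((j : ℝ≥0) * h) (((j + 1 : ℕ) : ℝ≥0) * h) ((l : ℝ≥0) * h) {gj h i k}
    have e : ((((j + 1 : ℕ) : ℝ≥0) * h : ℝ≥0) : ℝ) - (((j : ℝ≥0) * h : ℝ≥0) : ℝ) = h := by
      push_cast; ring
    rw [e] at this
    have e2 : V (gj h (j + 1) l ::ₘ {gj h i k}) + (h : ℝ) * p (gj h (j + 1) l, {gj h i k})
      ≤ V (gj h j l ::ₘ {gj h i k}) := this
    rw [hsw, hsw (gj h i k)]
    exact e2
  · intro i j
    have := hV (((j + 1 : ℕ) : ℝ≥0) * h) ((j : ℝ≥0) * h) ((l : ℝ≥0) * h) {gj h i k}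
    have e : (((j : ℝ≥0) * h : ℝ≥0) : ℝ) - ((((j + 1 : ℕ) : ℝ≥0) * h : ℝ≥0) : ℝ) = -h := by
      push_cast; ring
    rw [e] at this
    have e2 : V (gj h j l ::ₘ {gj h i k}) + -(h : ℝ) * p (gj h j l, {gj h i k})
      ≤ V (gj h (j + 1) l ::ₘ {gj h i k}) := this
    rw [hsw, hsw (gj h i k)]
    linarith
  · intro i
    exact hp.null (gj h 0 l) (gj h i k) 0 (null_gj0 h l)
  · intro j
    exact hp.null (gj h 0 k) (gj h j l) 0 (null_gj0 h k)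

theorem latB (hp : Reg c p) {Y : Multiset T → ℝ} (hY : ∀ (a b b' : ℝ≥0) (m : Multiset T),
    Y ((a, b') ::ₘ m) + ((b' : ℝ) - b) * (1 - p ((a, b'), m)) ≤ Y ((a, b) ::ₘ m)) (h : ℝ≥0)
    (i j : ℕ) :
    Lat h (fun k l => Y (gj h i k ::ₘ {gj h j l})) (fun k l => 1 - p (gj h i k, {gj h j l}))
      (fun k l => 1 - p (gj h j l, {gj h i k})) (fun k => 1 - p (gj h i k, 0))
      (fun l => 1 - p (gj h j l, 0)) := by
  have hsw : ∀ t s : T, Y (t ::ₘ {s}) = Y (s ::ₘ {t}) := by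
    intro t s
    rw [← Multiset.cons_zero s, Multiset.cons_swap, Multiset.cons_zero]
  refine ⟨fun k l => ?_, fun k l => ?_, fun k l => ?_, fun k l => ?_, ?_, ?_, ?_, ?_, ?_, ?_⟩
  · linarith [hp.le_one (gj h i k, {gj h j l})]
  · linarith [hp.nonneg (gj h i k, {gj h j l})]
  · linarith [hp.le_one (gj h j l, {gj h i k})]
  · linarith [hp.nonneg (gj h j l, {gj h i k})]
  · intro k l
    have := hY ((i : ℝ≥0) * h) ((k : ℝ≥0) * h) (((k + 1 : ℕ) : ℝ≥0) * h) {gj h j l}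
    have e : ((((k + 1 : ℕ) : ℝ≥0) * h : ℝ≥0) : ℝ) - (((k : ℝ≥0) * h : ℝ≥0) : ℝ) = h := by
      push_cast; ring
    rw [e] at this
    exact this
  · intro k l
    have := hY ((i : ℝ≥0) * h) (((k + 1 : ℕ) : ℝ≥0) * h) ((k : ℝ≥0) * h) {gj h j l}
    have e : (((k : ℝ≥0) * h : ℝ≥0) : ℝ) - ((((k + 1 : ℕ) : ℝ≥0) * h : ℝ≥0) : ℝ) = -h := by
      push_cast; ring
    rw [e] at this
    have e2 : Y (gj h i k ::ₘ {gj h j l}) + -(h : ℝ) * (1 - p (gj h i k, {gj h j l}))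
      ≤ Y (gj h i (k + 1) ::ₘ {gj h j l}) := this
    linarith
  · intro k l
    have := hY ((j : ℝ≥0) * h) ((l : ℝ≥0) * h) (((l + 1 : ℕ) : ℝ≥0) * h) {gj h i k}
    have e : ((((l + 1 : ℕ) : ℝ≥0) * h : ℝ≥0) : ℝ) - (((l : ℝ≥0) * h : ℝ≥0) : ℝ) = h := by
      push_cast; ring
    rw [e] at this
    have e2 : Y (gj h j (l + 1) ::ₘ {gj h i k}) + (h : ℝ) * (1 - p (gj h j (l + 1), {gj h i k}))
      ≤ Y (gj h j l ::ₘ {gj h i k}) := this
    rw [hsw, hsw (gj h i k)]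
    exact e2
  · intro k l
    have := hY ((j : ℝ≥0) * h) (((l + 1 : ℕ) : ℝ≥0) * h) ((l : ℝ≥0) * h) {gj h i k}
    have e : (((l : ℝ≥0) * h : ℝ≥0) : ℝ) - ((((l + 1 : ℕ) : ℝ≥0) * h : ℝ≥0) : ℝ) = -h := by
      push_cast; ring
    rw [e] at this
    have e2 : Y (gj h j l ::ₘ {gj h i k}) + -(h : ℝ) * (1 - p (gj h j l, {gj h i k}))
      ≤ Y (gj h j (l + 1) ::ₘ {gj h i k}) := this
    rw [hsw, hsw (gj h i k)]
    linarith
  · intro k
    exact congrArg (fun x => 1 - x) (hp.null (gj h j 0) (gj h i k) 0 (null_gj0' h j))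
  · intro l
    exact congrArg (fun x => 1 - x) (hp.null (gj h i 0) (gj h j l) 0 (null_gj0' h i))

theorem S4_swap (r1 r2 r3 r4 : ℝ) (N : ℕ) (F : ℕ → ℕ → ℕ → ℕ → ℝ) :
    S4 r1 r2 r3 r4 N F = ∑ k ∈ range N, ∑ l ∈ range N, (r3 ^ k * r4 ^ l)
      * ∑ i ∈ range N, ∑ j ∈ range N, (r1 ^ i * r2 ^ j) * F i j k l := by
  unfold S4
  have : ∀ k l, (r3 ^ k * r4 ^ l) * ∑ i ∈ range N, ∑ j ∈ range N, (r1 ^ i * r2 ^ j) * F i j k l
      = ∑ i ∈ range N, ∑ j ∈ range N, (r1 ^ i * r2 ^ j) * (r3 ^ k * r4 ^ l) * F i j k l := by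
    intro k l
    rw [Finset.mul_sum]
    refine Finset.sum_congr rfl fun i _ => ?_
    rw [Finset.mul_sum]
    exact Finset.sum_congr rfl fun j _ => by ring
  simp only [this]
  -- ij kl -> kl ij
  calc _ = ∑ i ∈ range N, ∑ k ∈ range N, ∑ j ∈ range N, ∑ l ∈ range N,
        (r1 ^ i * r2 ^ j) * (r3 ^ k * r4 ^ l) * F i j k l :=
        Finset.sum_congr rfl fun i _ => Finset.sum_comm
    _ = ∑ k ∈ range N, ∑ i ∈ range N, ∑ j ∈ range N, ∑ l ∈ range N,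
        (r1 ^ i * r2 ^ j) * (r3 ^ k * r4 ^ l) * F i j k l := Finset.sum_comm
    _ = ∑ k ∈ range N, ∑ i ∈ range N, ∑ l ∈ range N, ∑ j ∈ range N,
        (r1 ^ i * r2 ^ j) * (r3 ^ k * r4 ^ l) * F i j k l :=
        Finset.sum_congr rfl fun k _ => Finset.sum_congr rfl fun i _ => Finset.sum_comm
    _ = _ := Finset.sum_congr rfl fun k _ => Finset.sum_comm

theorem S4_eq (r1 r2 r3 r4 : ℝ) (N : ℕ) (F : ℕ → ℕ → ℕ → ℕ → ℝ) :
    S4 r1 r2 r3 r4 N F = ∑ i ∈ range N, ∑ j ∈ range N, (r1 ^ i * r2 ^ j)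
      * ∑ k ∈ range N, ∑ l ∈ range N, (r3 ^ k * r4 ^ l) * F i j k l := by
  unfold S4
  refine Finset.sum_congr rfl fun i _ => Finset.sum_congr rfl fun j _ => ?_
  rw [Finset.mul_sum]
  refine Finset.sum_congr rfl fun k _ => ?_
  rw [Finset.mul_sum]
  exact Finset.sum_congr rfl fun l _ => by ring

/-- outer summation of a two dimensional estimate -/
theorem outer {r3 r4 E : ℝ} (h3 : 0 ≤ r3) (h4 : 0 ≤ r4) (N : ℕ) {G : ℕ → ℕ → ℝ}
    (hG : ∀ k l, |G k l| ≤ E) :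
    |∑ k ∈ range N, ∑ l ∈ range N, (r3 ^ k * r4 ^ l) * G k l|
      ≤ E * ((∑ k ∈ range N, r3 ^ k) * ∑ l ∈ range N, r4 ^ l) := by
  rw [Finset.sum_mul_sum, Finset.mul_sum]
  refine (Finset.abs_sum_le_sum_abs _ _).trans (Finset.sum_le_sum fun k _ => ?_)
  rw [Finset.mul_sum]
  refine (Finset.abs_sum_le_sum_abs _ _).trans (Finset.sum_le_sum fun l _ => ?_)
  have : 0 ≤ r3 ^ k * r4 ^ l := by positivity
  rw [abs_mul, abs_of_nonneg this, mul_comm]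
  exact mul_le_mul_of_nonneg_right (hG k l) this

theorem lin2 (N : ℕ) (w A B : ℕ → ℕ → ℝ) (α β : ℝ) :
    ∑ k ∈ range N, ∑ l ∈ range N, w k l * (α * A k l - β * B k l)
      = α * ∑ k ∈ range N, ∑ l ∈ range N, w k l * A k l
        - β * ∑ k ∈ range N, ∑ l ∈ range N, w k l * B k l := by
  rw [Finset.mul_sum, Finset.mul_sum, ← Finset.sum_sub_distrib]
  refine Finset.sum_congr rfl fun k _ => ?_
  rw [Finset.mul_sum, Finset.mul_sum, ← Finset.sum_sub_distrib]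
  exact Finset.sum_congr rfl fun l _ => by ring

theorem pull (N : ℕ) (w A : ℕ → ℕ → ℝ) (h : ℝ) :
    ∑ k ∈ range N, ∑ l ∈ range N, w k l * (h * A k l)
      = h * ∑ k ∈ range N, ∑ l ∈ range N, w k l * A k l := by
  rw [Finset.mul_sum]
  refine Finset.sum_congr rfl fun k _ => ?_
  rw [Finset.mul_sum]
  exact Finset.sum_congr rfl fun l _ => by ring

theorem gridA (hp : Reg c p) (h : ℝ≥0) {r1 r2 r3 r4 : ℝ} (h1 : 0 ≤ r1) (h1' : r1 ≤ 1)
    (h2 : 0 ≤ r2) (h2' : r2 ≤ 1) (h3 : 0 ≤ r3) (h4 : 0 ≤ r4) (N : ℕ) :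
    |(h : ℝ) * ((1 - r2) * r1 * S4 r1 r2 r3 r4 N (F1 p h)
      - (1 - r1) * r2 * S4 r1 r2 r3 r4 N (F2 p h))|
      ≤ (4 * h + h * (N + 1) * (r1 ^ N + r2 ^ N))
        * ((∑ k ∈ range N, r3 ^ k) * ∑ l ∈ range N, r4 ^ l) := by
  obtain ⟨V, hV⟩ := hp.exV
  have key := outer h3 h4 N (G := fun k l =>
    (1 - r2) * r1 * (∑ i ∈ range N, ∑ j ∈ range N, r1 ^ i * r2 ^ j * (h * F1 p h i j k l))
      - (1 - r1) * r2 * ∑ i ∈ range N, ∑ j ∈ range N, r1 ^ i * r2 ^ j * (h * F2 p h i j k l))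
    (fun k l => (latA hp hV h k l).main h.2 h1 h1' h2 h2' N)
  refine le_trans (le_of_eq ?_) key
  congr 1
  simp only [pull N (fun i j => r1 ^ i * r2 ^ j)]
  simp only [← mul_assoc]
  rw [S4_swap, S4_swap]
  have := lin2 N (fun k l => r3 ^ k * r4 ^ l)
    (fun k l => ∑ i ∈ range N, ∑ j ∈ range N, (r1 ^ i * r2 ^ j) * F1 p h i j k l)
    (fun k l => ∑ i ∈ range N, ∑ j ∈ range N, (r1 ^ i * r2 ^ j) * F2 p h i j k l)
    ((1 - r2) * r1 * h) ((1 - r1) * r2 * h)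
  rw [this]
  ring

theorem gridB (hp : Reg c p) (h : ℝ≥0) {r1 r2 r3 r4 : ℝ} (h1 : 0 ≤ r1)
    (h2 : 0 ≤ r2) (h3 : 0 ≤ r3) (h3' : r3 ≤ 1) (h4 : 0 ≤ r4) (h4' : r4 ≤ 1) (N : ℕ) :
    |(h : ℝ) * ((1 - r4) * r3 * S4 r1 r2 r3 r4 N (F1 p h)
      - (1 - r3) * r4 * S4 r1 r2 r3 r4 N (F2 p h))|
      ≤ (4 * h + h * (N + 1) * (r3 ^ N + r4 ^ N))
        * ((∑ i ∈ range N, r1 ^ i) * ∑ j ∈ range N, r2 ^ j) := by
  obtain ⟨Y, hY⟩ := hp.exY
  have hm : ∀ i j, |(1 - r4) * r3 * (∑ k ∈ range N, ∑ l ∈ range N,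
      r3 ^ k * r4 ^ l * (h * F1 p h i j k l))
      - (1 - r3) * r4 * ∑ k ∈ range N, ∑ l ∈ range N,
        r3 ^ k * r4 ^ l * (h * F2 p h i j k l)| ≤ 4 * h + h * (N + 1) * (r3 ^ N + r4 ^ N) := by
    intro i j
    have := (latB hp hY h i j).main h.2 h3 h3' h4 h4' N
    rw [← abs_neg] at this
    refine le_trans (le_of_eq ?_) this
    congr 1
    have e : ∀ G G' : ℕ → ℕ → ℝ, (∀ k l, G' k l = - G k l) →
        ∑ k ∈ range N, ∑ l ∈ range N, r3 ^ k * r4 ^ l * G' k l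
        = -∑ k ∈ range N, ∑ l ∈ range N, r3 ^ k * r4 ^ l * G k l := by
      intro G G' hG
      rw [← Finset.sum_neg_distrib]
      refine Finset.sum_congr rfl fun k _ => ?_
      rw [← Finset.sum_neg_distrib]
      exact Finset.sum_congr rfl fun l _ => by rw [hG]; ring
    rw [e (fun k l => (h : ℝ) * F1 p h i j k l)
      (fun k l => h * (1 - p (gj h i k, {gj h j l}) - (1 - p (gj h i k, 0))))
      (fun k l => by simp only [F1]; ring),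
      e (fun k l => (h : ℝ) * F2 p h i j k l)
      (fun k l => h * (1 - p (gj h j l, {gj h i k}) - (1 - p (gj h j l, 0))))
      (fun k l => by simp only [F2]; ring)]
    ring
  have key := outer h1 h2 N (G := fun i j =>
    (1 - r4) * r3 * (∑ k ∈ range N, ∑ l ∈ range N, r3 ^ k * r4 ^ l * (h * F1 p h i j k l))
      - (1 - r3) * r4 * ∑ k ∈ range N, ∑ l ∈ range N, r3 ^ k * r4 ^ l * (h * F2 p h i j k l))
    hm
  refine le_trans (le_of_eq ?_) key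
  congr 1
  simp only [pull N (fun k l => r3 ^ k * r4 ^ l)]
  simp only [← mul_assoc]
  rw [S4_eq, S4_eq]
  have := lin2 N (fun i j => r1 ^ i * r2 ^ j)
    (fun i j => ∑ k ∈ range N, ∑ l ∈ range N, (r3 ^ k * r4 ^ l) * F1 p h i j k l)
    (fun i j => ∑ k ∈ range N, ∑ l ∈ range N, (r3 ^ k * r4 ^ l) * F2 p h i j k l)
    ((1 - r4) * r3 * h) ((1 - r3) * r4 * h)
  rw [this]
  ring

/-! ### Asymptotics -/

/-- the step -/
def hh (n : ℕ) : ℝ≥0 := 1 / ((n : ℝ≥0) + 1)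

/-- the number of grid points -/
def NN (n : ℕ) : ℕ := (n + 1) ^ 2

/-- the weight -/
def rr (ω : ℝ) (n : ℕ) : ℝ := Real.exp (-(ω * hh n))

theorem hh_coe (n : ℕ) : ((hh n : ℝ≥0) : ℝ) = 1 / ((n : ℝ) + 1) := by
  simp [hh]

theorem hh_pos (n : ℕ) : (0 : ℝ) < hh n := by rw [hh_coe]; positivity

theorem tendsto_hh : Tendsto (fun n => ((hh n : ℝ≥0) : ℝ)) atTop (𝓝 0) := by
  simp only [hh_coe]
  exact tendsto_one_div_add_atTop_nhds_zero_nat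

theorem rr_pos (ω : ℝ) (n : ℕ) : 0 < rr ω n := Real.exp_pos _

theorem rr_le {ω : ℝ} (hω : 0 ≤ ω) (n : ℕ) : rr ω n ≤ 1 :=
  Real.exp_le_one_iff.2 (neg_nonpos.2 (mul_nonneg hω (hh n).2))

theorem rr_lt {ω : ℝ} (hω : 0 < ω) (n : ℕ) : rr ω n < 1 :=
  Real.exp_lt_one_iff.2 (neg_lt_zero.2 (mul_pos hω (hh_pos n)))

theorem tendsto_rr (ω : ℝ) : Tendsto (rr ω) atTop (𝓝 1) := by
  have h1 : Tendsto (fun n => -(ω * ((hh n : ℝ≥0) : ℝ))) atTop (𝓝 (-(ω * 0))) :=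
    (tendsto_hh.const_mul ω).neg
  have := (Real.continuous_exp.tendsto _).comp h1
  rw [mul_zero, neg_zero, Real.exp_zero] at this
  exact this

theorem tendsto_slope (ω : ℝ) : Tendsto (fun n => (1 - rr ω n) / hh n) atTop (𝓝 ω) := by
  have hd : HasDerivAt (fun x : ℝ => Real.exp (-(ω * x))) (-ω) 0 := by
    have h1 : HasDerivAt (fun x : ℝ => -(ω * x)) (-ω) 0 := by
      simpa using ((hasDerivAt_id (0 : ℝ)).const_mul ω).fun_neg
    have := h1.exp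
    simpa using this
  rw [hasDerivAt_iff_tendsto_slope_zero] at hd
  have h2 : Tendsto (fun n => ((hh n : ℝ≥0) : ℝ)) atTop (𝓝[≠] 0) := by
    rw [tendsto_nhdsWithin_iff]
    exact ⟨tendsto_hh, Eventually.of_forall fun n => (hh_pos n).ne'⟩
  have h3 := (hd.comp h2).neg
  rw [neg_neg] at h3
  refine h3.congr fun n => ?_
  have := (hh_pos n).ne'
  simp only [Function.comp, zero_add, smul_eq_mul, rr, mul_zero, neg_zero, Real.exp_zero]
  field_simp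
  ring

theorem tendsto_slope_inv {ω : ℝ} (hω : 0 < ω) :
    Tendsto (fun n => hh n / (1 - rr ω n)) atTop (𝓝 ω⁻¹) := by
  have := (tendsto_slope ω).inv₀ hω.ne'
  refine this.congr fun n => ?_
  rw [inv_div]

theorem rr_pow (ω : ℝ) (n : ℕ) : rr ω n ^ NN n = Real.exp (-(ω * ((n : ℝ) + 1))) := by
  rw [rr, ← Real.exp_nat_mul, NN, hh_coe]
  congr 1
  push_cast
  field_simp

theorem tendsto_tail {ω : ℝ} (hω : 0 < ω) :
    Tendsto (fun n => ((NN n : ℝ) + 1) * rr ω n ^ NN n) atTop (𝓝 0) := by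
  have hx : Tendsto (fun n : ℕ => ω * ((n : ℝ) + 1)) atTop atTop :=
    (tendsto_natCast_atTop_atTop.atTop_add tendsto_const_nhds).const_mul_atTop hω
  have h2 := (Real.tendsto_pow_mul_exp_neg_atTop_nhds_zero 2).comp hx
  have h0 := (Real.tendsto_pow_mul_exp_neg_atTop_nhds_zero 0).comp hx
  have := (h2.mul_const ((ω ^ 2)⁻¹)).add h0
  simp only [zero_mul, zero_add] at this
  refine this.congr fun n => ?_
  rw [rr_pow]
  simp only [Function.comp, NN]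
  push_cast
  field_simp

theorem hG_le {ω : ℝ} (hω : 0 < ω) (n N : ℕ) :
    hh n * ∑ k ∈ range N, rr ω n ^ k ≤ hh n / (1 - rr ω n) := by
  have h1 : 0 < 1 - rr ω n := by linarith [rr_lt hω n]
  have h2 := geom_le (rr_pos ω n).le N
  rw [le_div_iff₀ h1]
  calc _ = hh n * ((1 - rr ω n) * ∑ k ∈ range N, rr ω n ^ k) := by ring
    _ ≤ hh n * 1 := mul_le_mul_of_nonneg_left h2 (hh_pos n).le
    _ = _ := mul_one _

/-- elementary estimate used twice -/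
theorem est {h N G3 G4 q3 q4 X t1 t2 : ℝ} (hh : 0 ≤ h) (hN : 0 ≤ N) (h1 : 0 ≤ t1)
    (h2 : 0 ≤ t2) (hG3 : 0 ≤ G3) (hG4 : 0 ≤ G4) (h3 : h * G3 ≤ q3) (h4 : h * G4 ≤ q4)
    (hX : |h * X| ≤ (4 * h + h * (N + 1) * (t1 + t2)) * (G3 * G4)) :
    |h ^ 2 * (h * X)| ≤ h * (4 + (N + 1) * t1 + (N + 1) * t2) * (q3 * q4) := by
  rw [abs_mul, abs_of_nonneg (by positivity)]
  have e : h ^ 2 * ((4 * h + h * (N + 1) * (t1 + t2)) * (G3 * G4))
      = h * (4 + (N + 1) * t1 + (N + 1) * t2) * ((h * G3) * (h * G4)) := by ring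
  calc h ^ 2 * |h * X| ≤ h ^ 2 * ((4 * h + h * (N + 1) * (t1 + t2)) * (G3 * G4)) :=
        mul_le_mul_of_nonneg_left hX (by positivity)
    _ = h * (4 + (N + 1) * t1 + (N + 1) * t2) * ((h * G3) * (h * G4)) := e
    _ ≤ _ := by
        refine mul_le_mul_of_nonneg_left ?_ (by positivity)
        exact mul_le_mul h3 h4 (by positivity) ((mul_nonneg hh hG3).trans h3)

/-- discrete Laplace transform of an interaction -/
def QQ (ω1 ω2 ω3 ω4 : ℝ) (F : ℝ≥0 → ℕ → ℕ → ℕ → ℕ → ℝ) (n : ℕ) : ℝ :=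
  (hh n : ℝ) ^ 4 * S4 (rr ω1 n) (rr ω2 n) (rr ω3 n) (rr ω4 n) (NN n) (F (hh n))

theorem tendsto_bound {ω1 ω2 ω3 ω4 : ℝ} (h1 : 0 < ω1) (h2 : 0 < ω2) (h3 : 0 < ω3)
    (h4 : 0 < ω4) :
    Tendsto (fun n => (hh n : ℝ) * (4 + ((NN n : ℝ) + 1) * rr ω1 n ^ NN n
      + ((NN n : ℝ) + 1) * rr ω2 n ^ NN n) * (hh n / (1 - rr ω3 n) * (hh n / (1 - rr ω4 n))))
      atTop (𝓝 0) := by
  have := (tendsto_hh.mul (((tendsto_const_nhds (x := (4 : ℝ))).add (tendsto_tail h1)).add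
    (tendsto_tail h2))).mul ((tendsto_slope_inv h3).mul (tendsto_slope_inv h4))
  simpa using this

theorem tendsto_Q (hp : Reg c p) {ω1 ω2 ω3 ω4 : ℝ} (h1 : 0 < ω1) (h2 : 0 < ω2) (h3 : 0 < ω3)
    (h4 : 0 < ω4) (hres : ω2 * ω3 - ω1 * ω4 ≠ 0) :
    Tendsto (QQ ω1 ω2 ω3 ω4 (F1 p)) atTop (𝓝 0) ∧ Tendsto (QQ ω1 ω2 ω3 ω4 (F2 p)) atTop (𝓝 0) := by
  set Q1 := QQ ω1 ω2 ω3 ω4 (F1 p) with hQ1
  set Q2 := QQ ω1 ω2 ω3 ω4 (F2 p) with hQ2
  let A : ℕ → ℝ := fun n => (1 - rr ω2 n) / hh n * rr ω1 n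
  let B : ℕ → ℝ := fun n => (1 - rr ω1 n) / hh n * rr ω2 n
  let C : ℕ → ℝ := fun n => (1 - rr ω4 n) / hh n * rr ω3 n
  let D : ℕ → ℝ := fun n => (1 - rr ω3 n) / hh n * rr ω4 n
  have hA : Tendsto A atTop (𝓝 ω2) := by
    have := (tendsto_slope ω2).mul (tendsto_rr ω1); rwa [mul_one] at this
  have hB : Tendsto B atTop (𝓝 ω1) := by
    have := (tendsto_slope ω1).mul (tendsto_rr ω2); rwa [mul_one] at this
  have hC : Tendsto C atTop (𝓝 ω4) := by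
    have := (tendsto_slope ω4).mul (tendsto_rr ω3); rwa [mul_one] at this
  have hD : Tendsto D atTop (𝓝 ω3) := by
    have := (tendsto_slope ω3).mul (tendsto_rr ω4); rwa [mul_one] at this
  have hAB : Tendsto (fun n => A n * Q1 n - B n * Q2 n) atTop (𝓝 0) := by
    refine squeeze_zero_norm (fun n => ?_) (tendsto_bound h1 h2 h3 h4)
    have hn := hh_pos n
    have e : A n * Q1 n - B n * Q2 n = (hh n : ℝ) ^ 2 * ((hh n : ℝ) *
        ((1 - rr ω2 n) * rr ω1 n * S4 (rr ω1 n) (rr ω2 n) (rr ω3 n) (rr ω4 n) (NN n) (F1 p (hh n))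
        - (1 - rr ω1 n) * rr ω2 n
          * S4 (rr ω1 n) (rr ω2 n) (rr ω3 n) (rr ω4 n) (NN n) (F2 p (hh n)))) := by
      simp only [A, B, hQ1, hQ2, QQ]
      field_simp
    rw [Real.norm_eq_abs, e]
    exact est hn.le (Nat.cast_nonneg _) (pow_nonneg (rr_pos ω1 n).le _)
      (pow_nonneg (rr_pos ω2 n).le _) (geom_nonneg (rr_pos ω3 n).le _)
      (geom_nonneg (rr_pos ω4 n).le _) (hG_le h3 n _) (hG_le h4 n _)
      (gridA hp (hh n) (rr_pos ω1 n).le (rr_le h1.le n) (rr_pos ω2 n).le (rr_le h2.le n)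
        (rr_pos ω3 n).le (rr_pos ω4 n).le (NN n))
  have hCD : Tendsto (fun n => C n * Q1 n - D n * Q2 n) atTop (𝓝 0) := by
    refine squeeze_zero_norm (fun n => ?_) (tendsto_bound h3 h4 h1 h2)
    have hn := hh_pos n
    have e : C n * Q1 n - D n * Q2 n = (hh n : ℝ) ^ 2 * ((hh n : ℝ) *
        ((1 - rr ω4 n) * rr ω3 n * S4 (rr ω1 n) (rr ω2 n) (rr ω3 n) (rr ω4 n) (NN n) (F1 p (hh n))
        - (1 - rr ω3 n) * rr ω4 n
          * S4 (rr ω1 n) (rr ω2 n) (rr ω3 n) (rr ω4 n) (NN n) (F2 p (hh n)))) := by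
      simp only [C, D, hQ1, hQ2, QQ]
      field_simp
    rw [Real.norm_eq_abs, e]
    exact est hn.le (Nat.cast_nonneg _) (pow_nonneg (rr_pos ω3 n).le _)
      (pow_nonneg (rr_pos ω4 n).le _) (geom_nonneg (rr_pos ω1 n).le _)
      (geom_nonneg (rr_pos ω2 n).le _) (hG_le h1 n _) (hG_le h2 n _)
      (gridB hp (hh n) (rr_pos ω1 n).le (rr_pos ω2 n).le (rr_pos ω3 n).le (rr_le h3.le n)
        (rr_pos ω4 n).le (rr_le h4.le n) (NN n))
  have hdet : Tendsto (fun n => A n * D n - B n * C n) atTop (𝓝 (ω2 * ω3 - ω1 * ω4)) :=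
    (hA.mul hD).sub (hB.mul hC)
  have hinv := hdet.inv₀ hres
  have hne : ∀ᶠ n in atTop, A n * D n - B n * C n ≠ 0 := hdet.eventually_ne hres
  constructor
  · have h5 := ((hD.mul hAB).sub (hB.mul hCD)).mul hinv
    simp only [mul_zero, sub_zero, zero_mul] at h5
    refine h5.congr' ?_
    filter_upwards [hne] with n hn
    have : D n * (A n * Q1 n - B n * Q2 n) - B n * (C n * Q1 n - D n * Q2 n)
        = Q1 n * (A n * D n - B n * C n) := by ring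
    rw [this, mul_inv_cancel_right₀ hn]
  · have h5 := ((hC.mul hAB).sub (hA.mul hCD)).mul hinv
    simp only [mul_zero, sub_zero, zero_mul] at h5
    refine h5.congr' ?_
    filter_upwards [hne] with n hn
    have : C n * (A n * Q1 n - B n * Q2 n) - A n * (C n * Q1 n - D n * Q2 n)
        = Q2 n * (A n * D n - B n * C n) := by ring
    rw [this, mul_inv_cancel_right₀ hn]

end

end Pool.Agent.Lib.MP_2c6a66_lc.LB
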