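import Pool.Agent.Lib.MP_2c6a66_lc.LB.Density

/-! Localisation: the cost inequality for independent jobs. -/

namespace Pool.Agent.Lib.MP_2c6a66_lc.LB

open scoped NNReal Topology
open Finset Filter

noncomputable section

/-- tent function -/
def tent (A B u : ℝ) : ℝ := max 0 (min (u - A) (B - u))

theorem tent_nonneg (A B u : ℝ) : 0 ≤ tent A B u := le_max_left _ _

theorem tent_ne {A B u : ℝ} (h : tent A B u ≠ 0) : A < u ∧ u < B := by
  by_contra hc
  apply h
  unfold tent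
  rw [max_eq_left]
  by_cases h1 : A < u
  · have : B ≤ u := by
      by_contra h2
      exact hc ⟨h1, lt_of_not_ge h2⟩
    exact (min_le_right _ _).trans (by linarith)
  · exact (min_le_left _ _).trans (by linarith)

theorem rr_pow' (ω : ℝ) (n k : ℕ) : rr ω n ^ k = Real.exp (-(ω * ((k : ℝ) * hh n))) := by
  rw [rr, ← Real.exp_nat_mul]
  congr 1
  ring

theorem tent_grid {ω lo hi : ℝ} (hω : 0 < ω) {n k : ℕ}
    (h : tent (Real.exp (-(ω * hi))) (Real.exp (-(ω * lo))) (rr ω n ^ k) ≠ 0) :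
    lo < (k : ℝ) * hh n ∧ (k : ℝ) * hh n < hi := by
  obtain ⟨h1, h2⟩ := tent_ne h
  rw [rr_pow', Real.exp_lt_exp, neg_lt_neg_iff, mul_lt_mul_iff_right₀ hω] at h1 h2
  exact ⟨h2, h1⟩

/-- Lower bound for a one dimensional Riemann sum. -/
theorem riemann {ω lo hi : ℝ} (hω : 0 < ω) (hlo : 0 < lo) (hlh : lo < hi) :
    ∃ lam > 0, ∀ᶠ n in atTop, lam ≤ hh n * ∑ k ∈ range (NN n), rr ω n ^ k
      * tent (Real.exp (-(ω * hi))) (Real.exp (-(ω * lo))) (rr ω n ^ k) := by
  set t1 := (2 * lo + hi) / 3 with ht1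
  set t2 := (lo + 2 * hi) / 3 with ht2
  have h12 : t1 < t2 := by rw [ht1, ht2]; linarith
  have hl1 : lo < t1 := by rw [ht1]; linarith
  have h2h : t2 < hi := by rw [ht2]; linarith
  have ht1p : 0 < t1 := hlo.trans hl1
  set A := Real.exp (-(ω * hi)) with hA
  set B := Real.exp (-(ω * lo)) with hB
  set E1 := Real.exp (-(ω * t1)) with hE1
  set E2 := Real.exp (-(ω * t2)) with hE2
  have hAE : A < E2 := Real.exp_lt_exp.2 (by nlinarith)
  have hEB : E1 < B := Real.exp_lt_exp.2 (by nlinarith)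
  set η := E2 * min (E2 - A) (B - E1) with hη
  have hηpos : 0 < η := mul_pos (Real.exp_pos _) (lt_min (by linarith) (by linarith))
  have hpt : ∀ n k : ℕ, t1 ≤ (k : ℝ) * hh n → (k : ℝ) * hh n ≤ t2 →
      η ≤ rr ω n ^ k * tent A B (rr ω n ^ k) := by
    intro n k h1 h2
    rw [rr_pow']
    set u := Real.exp (-(ω * ((k : ℝ) * hh n))) with hu
    have hu1 : u ≤ E1 := Real.exp_le_exp.2 (by nlinarith)
    have hu2 : E2 ≤ u := Real.exp_le_exp.2 (by nlinarith)
    have h3 : min (E2 - A) (B - E1) ≤ tent A B u := by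
      refine le_max_of_le_right (le_min ?_ ?_)
      · exact (min_le_left _ _).trans (by linarith)
      · exact (min_le_right _ _).trans (by linarith)
    exact mul_le_mul hu2 h3 (le_min (by linarith) (by linarith)) (Real.exp_pos _).le
  refine ⟨(t2 - t1) / 2 * η, by have : 0 < t2 - t1 := by linarith
                                positivity, ?_⟩
  have hev1 : ∀ᶠ n in atTop, ((hh n : ℝ≥0) : ℝ) < (t2 - t1) / 2 :=
    tendsto_hh.eventually_lt_const (by linarith)
  have hev2 : ∀ᶠ n : ℕ in atTop, t2 < (n : ℝ) :=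
    (tendsto_natCast_atTop_atTop (R := ℝ)).eventually_gt_atTop t2
  filter_upwards [hev1, hev2] with n hn1 hn2
  have hp := hh_pos n
  set K := ⌈t1 / hh n⌉₊ with hK
  set M := ⌊(t2 - t1) / hh n⌋₊ with hM
  have hKc : (K : ℝ) < t1 / hh n + 1 := Nat.ceil_lt_add_one (by positivity)
  have hKc' : t1 / hh n ≤ K := Nat.le_ceil _
  have hMc : (M : ℝ) ≤ (t2 - t1) / hh n := Nat.floor_le (by
    have : 0 < t2 - t1 := by linarith
    positivity)
  have hMc' : (t2 - t1) / hh n < M + 1 := Nat.lt_floor_add_one _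
  have hmem : ∀ k ∈ Finset.Ico K (K + M), t1 ≤ (k : ℝ) * hh n ∧ (k : ℝ) * hh n ≤ t2 := by
    intro k hk
    obtain ⟨hk1, hk2⟩ := Finset.mem_Ico.1 hk
    have hk1' : (K : ℝ) ≤ k := by exact_mod_cast hk1
    have hk2' : (k : ℝ) + 1 ≤ K + M := by exact_mod_cast hk2
    constructor
    · have : t1 / hh n ≤ k := hKc'.trans hk1'
      rwa [div_le_iff₀ hp] at this
    · have h1 : (k : ℝ) ≤ t1 / hh n + (t2 - t1) / hh n := by linarith
      have h2 := mul_le_mul_of_nonneg_right h1 hp.le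
      rw [add_mul, div_mul_cancel₀ _ hp.ne', div_mul_cancel₀ _ hp.ne'] at h2
      linarith
  have hsub : Finset.Ico K (K + M) ⊆ range (NN n) := by
    intro k hk
    have h1 := (hmem k hk).2
    rw [Finset.mem_range]
    have h2 : (k : ℝ) < (NN n : ℝ) := by
      rw [hh_coe, mul_one_div, div_le_iff₀ (by positivity)] at h1
      have : (NN n : ℝ) = ((n : ℝ) + 1) * ((n : ℝ) + 1) := by
        simp only [NN]; push_cast; ring
      rw [this]
      have h0 : (0 : ℝ) < (n : ℝ) + 1 := by positivity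
      nlinarith
    exact_mod_cast h2
  have hsum : (M : ℝ) * η ≤ ∑ k ∈ range (NN n), rr ω n ^ k * tent A B (rr ω n ^ k) := by
    refine le_trans ?_ (Finset.sum_le_sum_of_subset_of_nonneg hsub fun k _ _ =>
      mul_nonneg (pow_nonneg (rr_pos ω n).le _) (tent_nonneg _ _ _))
    have := Finset.card_nsmul_le_sum (Finset.Ico K (K + M))
      (fun k => rr ω n ^ k * tent A B (rr ω n ^ k)) η
      (fun k hk => hpt n k (hmem k hk).1 (hmem k hk).2)
    rwa [Nat.card_Ico, Nat.add_sub_cancel_left, nsmul_eq_mul] at this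
  have h1 := mul_le_mul_of_nonneg_left hsum hp.le
  refine le_trans ?_ h1
  have h2 : (t2 - t1) / 2 ≤ hh n * (M : ℝ) := by
    have h3 := mul_lt_mul_of_pos_right hMc' hp
    rw [div_mul_cancel₀ _ hp.ne'] at h3
    nlinarith
  calc (t2 - t1) / 2 * η ≤ (hh n * (M : ℝ)) * η := mul_le_mul_of_nonneg_right h2 hηpos.le
    _ = _ := by ring

/-- product test function -/
def test (A B : Fin 4 → ℝ) : C(Fin 4 → unitInterval, ℝ) :=
  ⟨fun x => tent (A 0) (B 0) (x 0) * tent (A 1) (B 1) (x 1) * tent (A 2) (B 2) (x 2)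
    * tent (A 3) (B 3) (x 3), by unfold tent; fun_prop⟩

theorem test_pt (A B : Fin 4 → ℝ) (n i j k l : ℕ) : test A B (pt n i j k l)
    = tent (A 0) (B 0) (rr (om 0) n ^ i) * tent (A 1) (B 1) (rr (om 1) n ^ j)
      * tent (A 2) (B 2) (rr (om 2) n ^ k) * tent (A 3) (B 3) (rr (om 3) n ^ l) := by
  simp [test, pt, Rk]

/-- exponentials of the end points -/
def ee (v : Fin 4 → ℝ) (i : Fin 4) : ℝ := Real.exp (-(om i * v i))

theorem mass {lo hi : Fin 4 → ℝ} (hlo : ∀ i, 0 < lo i) (hlh : ∀ i, lo i < hi i) :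
    ∃ lam > 0, ∀ᶠ n in atTop, lam ≤ LL (fun _ _ _ _ _ => 1) n (test (ee hi) (ee lo)) := by
  choose lam hlam hev using fun i => riemann (om_pos i) (hlo i) (hlh i)
  refine ⟨lam 0 * lam 1 * (lam 2 * lam 3), by
    have := hlam 0; have := hlam 1; have := hlam 2; have := hlam 3; positivity, ?_⟩
  filter_upwards [hev 0, hev 1, hev 2, hev 3] with n h0 h1 h2 h3
  have e : LL (fun _ _ _ _ _ => 1) n (test (ee hi) (ee lo))
      = (hh n * ∑ k ∈ range (NN n), rr (om 0) n ^ k
        * tent (ee hi 0) (ee lo 0) (rr (om 0) n ^ k))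
        * (hh n * ∑ k ∈ range (NN n), rr (om 1) n ^ k
        * tent (ee hi 1) (ee lo 1) (rr (om 1) n ^ k))
        * ((hh n * ∑ k ∈ range (NN n), rr (om 2) n ^ k
        * tent (ee hi 2) (ee lo 2) (rr (om 2) n ^ k))
        * (hh n * ∑ k ∈ range (NN n), rr (om 3) n ^ k
        * tent (ee hi 3) (ee lo 3) (rr (om 3) n ^ k))) := by
    unfold LL
    simp only [test_pt, mul_one]
    rw [S4_prod (f1 := fun i => tent (ee hi 0) (ee lo 0) (rr (om 0) n ^ i))
      (f2 := fun i => tent (ee hi 1) (ee lo 1) (rr (om 1) n ^ i))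
      (f3 := fun i => tent (ee hi 2) (ee lo 2) (rr (om 2) n ^ i))
      (f4 := fun i => tent (ee hi 3) (ee lo 3) (rr (om 3) n ^ i))]
    ring
  rw [e]
  have p0 := hlam 0
  have p1 := hlam 1
  have p2 := hlam 2
  have p3 := hlam 3
  exact mul_le_mul (mul_le_mul h0 h1 p1.le (p0.le.trans h0))
    (mul_le_mul h2 h3 p3.le (p2.le.trans h2)) (by positivity)
    (mul_nonneg (p0.le.trans h0) (p1.le.trans h1))

variable {c : ℝ} {p : T × Multiset T → ℝ}

/-- decreasing in the own time -/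
theorem Reg.anti (hp : Reg c p) {a a' b : ℝ≥0} (h : a ≤ a') :
    p ((a', b), 0) ≤ p ((a, b), 0) := by
  obtain ⟨V, hV⟩ := hp.exV
  rcases h.eq_or_lt with rfl | h
  · exact le_rfl
  · have h1 := hV a a' b 0
    have h2 := hV a' a b 0
    have h3 : (0 : ℝ) < (a' : ℝ) - a := by
      have : (a : ℝ) < a' := by exact_mod_cast h
      linarith
    have h4 : ((a' : ℝ) - a) * p ((a', b), 0) ≤ ((a' : ℝ) - a) * p ((a, b), 0) := by linarith
    exact le_of_mul_le_mul_left h4 h3

/-- increasing in the time of the other machine -/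
theorem Reg.mono (hp : Reg c p) {a b b' : ℝ≥0} (h : b ≤ b') :
    p ((a, b), 0) ≤ p ((a, b'), 0) := by
  obtain ⟨Y, hY⟩ := hp.exY
  rcases h.eq_or_lt with rfl | h
  · exact le_rfl
  · have h1 := hY a b b' 0
    have h2 := hY a b' b 0
    have h3 : (0 : ℝ) < (b' : ℝ) - b := by
      have : (b : ℝ) < b' := by exact_mod_cast h
      linarith
    have h4 : ((b' : ℝ) - b) * p ((a, b), 0) ≤ ((b' : ℝ) - b) * p ((a, b'), 0) := by linarith
    exact le_of_mul_le_mul_left h4 h3

theorem Reg.one_le (hp : Reg c p) : 1 ≤ c := by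
  have := hp.cost (1, 1) (0, 1) 0 (by simp)
  simpa using this

/-- the profile -/
def ww (p : T × Multiset T → ℝ) (z : ℝ≥0) : ℝ := 1 - p ((1, z), 0)

theorem Reg.swap0 (hp : Reg c p) (a b : ℝ≥0) : p ((b, a), 0) = 1 - p ((a, b), 0) := by
  have := hp.symm (a, b) 0
  simpa using this

theorem star_delta (hp : Reg c p) {x y δ : ℝ≥0} (hδ : 0 < δ) (hδy : δ < y)
    (hδx : 1 + y + 2 * δ ≤ x) :
    ((y : ℝ) - δ) * ww p y + ((x : ℝ) - 1 - y - 2 * δ) * ww p x ≤ c * (1 + δ) - 1 := by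
  have hδ' : (0 : ℝ) < δ := by exact_mod_cast hδ
  have hδy' : (δ : ℝ) < y := by exact_mod_cast hδy
  have hδx' : 1 + (y : ℝ) + 2 * δ ≤ x := by exact_mod_cast hδx
  by_contra hcon
  push Not at hcon
  set K := c * (1 + δ) - 1 - (((y : ℝ) - δ) * ww p y + ((x : ℝ) - 1 - y - 2 * δ) * ww p x) with hK
  have hKneg : K < 0 := by rw [hK]; linarith
  let lo : Fin 4 → ℝ := ![(y : ℝ) - δ, 1, 1, (x : ℝ) - δ]
  let hi : Fin 4 → ℝ := ![(y : ℝ), 1 + δ, 1 + δ, (x : ℝ)]
  have hlo : ∀ i, 0 < lo i := by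
    intro i
    fin_cases i
    · change 0 < (y : ℝ) - δ; linarith
    · exact one_pos
    · exact one_pos
    · change 0 < (x : ℝ) - δ; linarith
  have hlh : ∀ i, lo i < hi i := by
    intro i
    fin_cases i
    · change (y : ℝ) - δ < y; linarith
    · change (1 : ℝ) < 1 + δ; linarith
    · change (1 : ℝ) < 1 + δ; linarith
    · change (x : ℝ) - δ < x; linarith
  obtain ⟨lam, hlam, hev⟩ := mass hlo hlh
  set ψ := test (ee hi) (ee lo) with hψ
  have hpt : ∀ n i j k l, ψ (pt n i j k l) * (((y : ℝ) - δ) * F1 p (hh n) i j k l)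
      + ψ (pt n i j k l) * (-((x : ℝ) - 1 - y - 2 * δ) * F2 p (hh n) i j k l)
      ≤ K * (ψ (pt n i j k l) * 1) := by
    intro n i j k l
    rw [hψ, test_pt]
    set u0 := tent (ee hi 0) (ee lo 0) (rr (om 0) n ^ i) with hu0
    set u1 := tent (ee hi 1) (ee lo 1) (rr (om 1) n ^ j) with hu1
    set u2 := tent (ee hi 2) (ee lo 2) (rr (om 2) n ^ k) with hu2
    set u3 := tent (ee hi 3) (ee lo 3) (rr (om 3) n ^ l) with hu3
    by_cases hz : u0 * u1 * u2 * u3 = 0
    · rw [hz]; simp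
    · have hz0 : u0 ≠ 0 := by rintro h; apply hz; rw [h]; ring
      have hz1 : u1 ≠ 0 := by rintro h; apply hz; rw [h]; ring
      have hz2 : u2 ≠ 0 := by rintro h; apply hz; rw [h]; ring
      have hz3 : u3 ≠ 0 := by rintro h; apply hz; rw [h]; ring
      obtain ⟨i1, i2⟩ := tent_grid (om_pos 0) hz0
      obtain ⟨j1, j2⟩ := tent_grid (om_pos 1) hz1
      obtain ⟨k1, k2⟩ := tent_grid (om_pos 2) hz2
      obtain ⟨l1, l2⟩ := tent_grid (om_pos 3) hz3
      change (y : ℝ) - δ < (i : ℝ) * hh n at i1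
      change (i : ℝ) * hh n < y at i2
      change 1 < (j : ℝ) * hh n at j1
      change (j : ℝ) * hh n < 1 + δ at j2
      change 1 < (k : ℝ) * hh n at k1
      change (k : ℝ) * hh n < 1 + δ at k2
      change (x : ℝ) - δ < (l : ℝ) * hh n at l1
      change (l : ℝ) * hh n < x at l2
      have hupos : 0 ≤ u0 * u1 * u2 * u3 :=
        mul_nonneg (mul_nonneg (mul_nonneg (tent_nonneg _ _ _) (tent_nonneg _ _ _))
          (tent_nonneg _ _ _)) (tent_nonneg _ _ _)
      set t := gj (hh n) i k with ht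
      set s := gj (hh n) j l with hs
      have ta : ((t.1 : ℝ≥0) : ℝ) = (i : ℝ) * hh n := by simp [ht, gj]
      have tb : ((t.2 : ℝ≥0) : ℝ) = (k : ℝ) * hh n := by simp [ht, gj]
      have sa : ((s.1 : ℝ≥0) : ℝ) = (j : ℝ) * hh n := by simp [hs, gj]
      have sb : ((s.2 : ℝ≥0) : ℝ) = (l : ℝ) * hh n := by simp [hs, gj]
      have hcost := hp.cost s t 0 (by simp)
      rw [Multiset.cons_zero, Multiset.cons_zero, ta, tb, sa, sb] at hcost
      have hmin : 1 ≤ min ((j : ℝ) * hh n) ((k : ℝ) * hh n) := le_min j1.le k1.le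
      have hmax : max ((j : ℝ) * hh n) ((k : ℝ) * hh n) ≤ 1 + δ := max_le j2.le k2.le
      have hc := hp.one_le
      have hmax' := mul_le_mul_of_nonneg_left hmax (by linarith : (0 : ℝ) ≤ c)
      have q1 := hp.nonneg (t, {s})
      have q2 := hp.le_one (s, {t})
      have m1 : ((y : ℝ) - δ) * p (t, {s}) ≤ (i : ℝ) * hh n * p (t, {s}) :=
        mul_le_mul_of_nonneg_right i1.le q1
      have m2 : ((x : ℝ) - 1 - y - 2 * δ) * (1 - p (s, {t}))
          ≤ ((l : ℝ) * hh n - (k : ℝ) * hh n - (i : ℝ) * hh n) * (1 - p (s, {t})) :=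
        mul_le_mul_of_nonneg_right (by linarith) (by linarith)
      -- comparison with the profile
      have w1 : ww p y ≤ p (t, 0) := by
        have e1 : ww p y = p ((y, 1), 0) := by
          unfold ww; rw [hp.swap0 1 y]
        rw [e1]
        have a1 : t.1 ≤ y := by
          rw [← NNReal.coe_le_coe, ta]; exact i2.le
        have a2 : 1 ≤ t.2 := by
          rw [← NNReal.coe_le_coe, tb]; simpa using k1.le
        calc p ((y, 1), 0) ≤ p ((y, t.2), 0) := hp.mono a2
          _ ≤ p ((t.1, t.2), 0) := hp.anti a1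
      have w2 : ww p x ≤ 1 - p (s, 0) := by
        have a1 : s.2 ≤ x := by
          rw [← NNReal.coe_le_coe, sb]; exact l2.le
        have a2 : 1 ≤ s.1 := by
          rw [← NNReal.coe_le_coe, sa]; simpa using j1.le
        have : p (s, 0) ≤ p ((1, x), 0) := by
          calc p ((s.1, s.2), 0) ≤ p ((s.1, x), 0) := hp.mono a1
            _ ≤ p ((1, x), 0) := hp.anti a2
        unfold ww; linarith
      have m3 := mul_le_mul_of_nonneg_left w1 (by linarith : (0 : ℝ) ≤ (y : ℝ) - δ)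
      have m4 := mul_le_mul_of_nonneg_left w2 (by linarith : (0 : ℝ) ≤ (x : ℝ) - 1 - y - 2 * δ)
      have main : ((y : ℝ) - δ) * F1 p (hh n) i j k l
          + -((x : ℝ) - 1 - y - 2 * δ) * F2 p (hh n) i j k l ≤ K := by
        have f1 : F1 p (hh n) i j k l = p (t, {s}) - p (t, 0) := rfl
        have f2 : F2 p (hh n) i j k l = p (s, {t}) - p (s, 0) := rfl
        rw [f1, f2, hK]
        linarith
      have := mul_le_mul_of_nonneg_left main hupos
      linarith
  have hineq : ∀ n, ((y : ℝ) - δ) * LL (F1 p) n ψ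
      + -((x : ℝ) - 1 - y - 2 * δ) * LL (F2 p) n ψ ≤ K * LL (fun _ _ _ _ _ => 1) n ψ := by
    intro n
    have h1 := S4_mono (rr_pos (om 0) n).le (rr_pos (om 1) n).le (rr_pos (om 2) n).le
      (rr_pos (om 3) n).le (NN n) (hpt n)
    rw [S4_add, S4_smul] at h1
    have e1 : ∀ (a : ℝ) (G : ℕ → ℕ → ℕ → ℕ → ℝ),
        S4 (rr (om 0) n) (rr (om 1) n) (rr (om 2) n) (rr (om 3) n) (NN n)
          (fun i j k l => ψ (pt n i j k l) * (a * G i j k l))
        = a * S4 (rr (om 0) n) (rr (om 1) n) (rr (om 2) n) (rr (om 3) n) (NN n)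
          (fun i j k l => ψ (pt n i j k l) * G i j k l) := by
      intro a G
      rw [← S4_smul]
      congr 1
      funext i j k l
      ring
    rw [e1, e1] at h1
    have h2 := mul_le_mul_of_nonneg_left h1 (pow_nonneg (hh_pos n).le 4)
    unfold LL
    linarith
  have hlim : Tendsto (fun n => ((y : ℝ) - δ) * LL (F1 p) n ψ
      + -((x : ℝ) - 1 - y - 2 * δ) * LL (F2 p) n ψ) atTop (𝓝 0) := by
    have := ((tendsto_F1 hp ψ).const_mul ((y : ℝ) - δ)).add
      ((tendsto_F2 hp ψ).const_mul (-((x : ℝ) - 1 - y - 2 * δ)))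
    simpa using this
  have hle : (0 : ℝ) ≤ K * lam := by
    refine le_of_tendsto hlim ?_
    filter_upwards [hev] with n hn
    refine (hineq n).trans ?_
    exact mul_le_mul_of_nonpos_left hn hKneg.le
  nlinarith

/-- The key inequality for the profile of a regular family. -/
theorem star (hp : Reg c p) {x y : ℝ≥0} (hy : 0 < y) (hx : 1 + y < x) :
    (y : ℝ) * ww p y + ((x : ℝ) - 1 - y) * ww p x ≤ c - 1 := by
  have hy' : (0 : ℝ) < y := by exact_mod_cast hy
  have hx' : 1 + (y : ℝ) < x := by exact_mod_cast hx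
  have hc := hp.one_le
  have w0 : ∀ z, 0 ≤ ww p z := fun z => by
    have := hp.le_one ((1, z), 0); unfold ww; linarith
  have w1 : ∀ z, ww p z ≤ 1 := fun z => by
    have := hp.nonneg ((1, z), 0); unfold ww; linarith
  refine le_of_forall_pos_le_add fun ε hε => ?_
  set d : ℝ := min (ε / (c + 3)) (min ((y : ℝ) / 2) (((x : ℝ) - 1 - y) / 2)) with hd
  have hdpos : 0 < d := lt_min (by positivity) (lt_min (by positivity) (by linarith))
  have hd1 : d ≤ ε / (c + 3) := min_le_left _ _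
  have hd2 : d ≤ (y : ℝ) / 2 := (min_le_right _ _).trans (min_le_left _ _)
  have hd3 : d ≤ ((x : ℝ) - 1 - y) / 2 := (min_le_right _ _).trans (min_le_right _ _)
  let δ : ℝ≥0 := ⟨d, hdpos.le⟩
  have hδ : 0 < δ := by rw [← NNReal.coe_pos]; exact hdpos
  have h1 := star_delta hp (x := x) (y := y) (δ := δ) hδ
    (by rw [← NNReal.coe_lt_coe]; change d < y; linarith)
    (by rw [← NNReal.coe_le_coe]; push_cast; change 1 + (y : ℝ) + 2 * d ≤ x; linarith)
  change ((y : ℝ) - d) * ww p y + ((x : ℝ) - 1 - y - 2 * d) * ww p x ≤ c * (1 + d) - 1 at h1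
  have h2 : (c + 3) * d ≤ ε := by
    rw [le_div_iff₀ (by linarith)] at hd1; linarith
  have h3 := mul_le_mul_of_nonneg_left (w1 y) hdpos.le
  have h4 := mul_le_mul_of_nonneg_left (w1 x) hdpos.le
  linarith

end

end Pool.Agent.Lib.MP_2c6a66_lc.LB
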