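import Pool.Agent.Lib.MP_2c6a66_lc.LB.Defs

/-! From mechanisms for every number of jobs to an anonymous family indexed by multisets. -/

namespace Pool.Agent.Lib.MP_2c6a66_lc.LB

open scoped NNReal

noncomputable section

/-- ordered version of `Fam` for a fixed number of jobs -/
structure OFam (c : ℝ) (n : ℕ) (g : (Fin n → T) → Fin n → ℝ) (V Y : (Fin n → T) → ℝ) : Prop where
  nonneg : ∀ x k, 0 ≤ g x k
  le_one : ∀ x k, g x k ≤ 1
  teV : ∀ (x : Fin n → T) (k : Fin n) (a' : ℝ≥0),
    V (Function.update x k (a', (x k).2))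
      + ((a' : ℝ) - (x k).1) * g (Function.update x k (a', (x k).2)) k ≤ V x
  teY : ∀ (x : Fin n → T) (k : Fin n) (b' : ℝ≥0),
    Y (Function.update x k ((x k).1, b'))
      + ((b' : ℝ) - (x k).2) * (1 - g (Function.update x k ((x k).1, b')) k) ≤ Y x
  cost : ∀ (x : Fin n → T) (s t : Fin n), s ≠ t → (∀ k, k ≠ s → k ≠ t → Null (x k)) →
    min ((x s).1 : ℝ) (x t).2 + (x t).1 * g x t
      + (((x s).2 : ℝ) - (x t).2 - (x t).1) * (1 - g x s) ≤ c * max ((x s).1 : ℝ) (x t).2
  cost' : ∀ (x : Fin n → T) (s t : Fin n), s ≠ t → (∀ k, k ≠ s → k ≠ t → Null (x k)) →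
    min ((x s).1 : ℝ) (x t).2 + (x s).2 * (1 - g x s)
      + (((x t).1 : ℝ) - (x s).1 - (x s).2) * g x t ≤ c * max ((x s).1 : ℝ) (x t).2

section ordered

variable {n : ℕ} {c : ℝ}

/-- reports from jobs -/
def bb (x : Fin n → T) : Fin 2 → Fin n → ℝ := fun i k => if i = 0 then ((x k).1 : ℝ) else (x k).2

theorem bb_nonneg (x : Fin n → T) (i : Fin 2) (k : Fin n) : 0 ≤ bb x i k := by
  unfold bb; split_ifs <;> exact NNReal.coe_nonneg _

theorem fin2_cases (i : Fin 2) : i = 0 ∨ i = 1 := by revert i; decide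

theorem two_le_sum {f : Fin n → ℝ} (hf : ∀ k, 0 ≤ f k) {s t : Fin n} (h : s ≠ t) :
    f s + f t ≤ ∑ k, f k := by
  have : ∑ k ∈ ({s, t} : Finset (Fin n)), f k ≤ ∑ k, f k :=
    Finset.sum_le_sum_of_subset_of_nonneg (Finset.subset_univ _) (fun k _ _ => hf k)
  rwa [Finset.sum_pair h] at this

theorem load_ge (x : Fin n → T) (i : Fin 2) (σ : Fin n → Fin 2) {s t : Fin n} (h : s ≠ t) :
    bb x i s * (if σ s = i then 1 else 0) + bb x i t * (if σ t = i then 1 else 0)
      ≤ ∑ k with σ k = i, bb x i k := by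
  rw [Finset.sum_filter]
  have := two_le_sum (f := fun k => if σ k = i then bb x i k else 0) (fun k => by
    split_ifs; exacts [bb_nonneg _ _ _, le_rfl]) h
  simpa using this

/-- the assignment of `s` to machine 0, `t` to machine 1 and null jobs for free -/
def tau (x : Fin n → T) (s t : Fin n) : Fin n → Fin 2 := fun k =>
  if k = s then 0 else if k = t then 1 else if (x k).1 = 0 then 0 else 1

theorem load_tau0 (x : Fin n → T) {s t : Fin n} (h : s ≠ t) :
    ∑ k with tau x s t k = 0, bb x 0 k = (x s).1 := by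
  rw [Finset.sum_filter, Finset.sum_eq_single s]
  · simp [tau, bb]
  · intro k _ hk
    by_cases hkt : k = t
    · subst hkt; simp [tau, Ne.symm h]
    · by_cases h0 : (x k).1 = 0
      · simp [tau, hk, hkt, h0, bb]
      · simp [tau, hk, hkt, h0]
  · simp

theorem load_tau1 (x : Fin n → T) {s t : Fin n} (h : s ≠ t)
    (hN : ∀ k, k ≠ s → k ≠ t → Null (x k)) :
    ∑ k with tau x s t k = 1, bb x 1 k = (x t).2 := by
  rw [Finset.sum_filter, Finset.sum_eq_single t]
  · simp [tau, bb, Ne.symm h]
  · intro k _ hk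
    by_cases hks : k = s
    · subst hks; simp [tau]
    · by_cases h0 : (x k).1 = 0
      · simp [tau, hk, hks, h0]
      · have : (x k).2 = 0 := (hN k hks hk).resolve_left h0
        simp [tau, hk, hks, h0, bb, this]
  · simp

/-- single mechanism gives an ordered family -/
theorem ofam_of_hasMechanism (h : HasMechanism n c) :
    ∃ g V Y, OFam c n g V Y := by
  obtain ⟨p, pay, H⟩ := h
  have Hx : ∀ x : Fin n → T, _ := fun x => H (bb x) (bb_nonneg x)
  have hp : ∀ x : Fin n → T, ∀ σ, 0 ≤ p (bb x) σ := fun x => (Hx x).1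
  have hp1 : ∀ x : Fin n → T, ∑ σ, p (bb x) σ = 1 := fun x => (Hx x).2.1
  have hTE : ∀ x : Fin n → T, _ := fun x => (Hx x).2.2.1
  have hR : ∀ x : Fin n → T, _ := fun x => (Hx x).2.2.2
  let g : (Fin n → T) → Fin n → ℝ := fun x k => ∑ σ, p (bb x) σ * (if σ k = 0 then 1 else 0)
  let U : Fin 2 → (Fin n → T) → ℝ := fun i x =>
    pay (bb x) i - ∑ σ, p (bb x) σ * ∑ k with σ k = i, bb x i k
  have hg1 : ∀ x k, 1 - g x k = ∑ σ, p (bb x) σ * (if σ k = 1 then 1 else 0) := by
    intro x k
    have h1 := hp1 x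
    have : (1 : ℝ) - g x k = ∑ σ, (p (bb x) σ - p (bb x) σ * (if σ k = 0 then 1 else 0)) := by
      rw [Finset.sum_sub_distrib, h1]
    rw [this]
    refine Finset.sum_congr rfl fun σ _ => ?_
    rcases fin2_cases (σ k) with h | h <;> simp [h]
  refine ⟨g, U 0, U 1, ⟨?_, ?_, ?_, ?_, ?_, ?_⟩⟩
  · intro x k
    exact Finset.sum_nonneg fun σ _ => mul_nonneg (hp x σ) (by split_ifs <;> norm_num)
  · intro x k
    have : 0 ≤ 1 - g x k := by
      rw [hg1]
      exact Finset.sum_nonneg fun σ _ => mul_nonneg (hp x σ) (by split_ifs <;> norm_num)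
    linarith
  · intro x k a'
    set x' := Function.update x k (a', (x k).2) with hx'
    have e : Function.update (bb x) 0 (bb x' 0) = bb x' := by
      funext i j
      rcases fin2_cases i with rfl | rfl
      · simp
      · rw [Function.update_of_ne (by decide)]
        simp only [bb, hx']
        by_cases hj : j = k
        · subst hj; simp
        · rw [Function.update_of_ne hj]
    have h1 := hTE x 0 (bb x' 0) (bb_nonneg x' 0)
    rw [e] at h1
    have e2 : ∀ σ : Fin n → Fin 2, ∑ j with σ j = 0, bb x 0 j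
        = ∑ j with σ j = 0, bb x' 0 j - ((a' : ℝ) - (x k).1) * (if σ k = 0 then 1 else 0) := by
      intro σ
      rw [Finset.sum_filter, Finset.sum_filter, eq_sub_iff_add_eq, ← eq_sub_iff_add_eq',
        ← Finset.sum_sub_distrib, Finset.sum_eq_single k]
      · by_cases h0 : σ k = 0 <;> simp [h0, bb, hx']
      · intro j _ hj
        simp [bb, hx', Function.update_of_ne hj]
      · simp
    have e3 : ∑ σ, p (bb x') σ * ∑ j with σ j = 0, bb x 0 j
        = ∑ σ, p (bb x') σ * ∑ j with σ j = 0, bb x' 0 j - ((a' : ℝ) - (x k).1) * g x' k := by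
      simp only [g]
      rw [Finset.mul_sum, ← Finset.sum_sub_distrib]
      refine Finset.sum_congr rfl fun σ _ => ?_
      rw [e2 σ]; ring
    rw [e3] at h1
    simp only [U]
    linarith
  · intro x k b'
    set x' := Function.update x k ((x k).1, b') with hx'
    have e : Function.update (bb x) 1 (bb x' 1) = bb x' := by
      funext i j
      rcases fin2_cases i with rfl | rfl
      · rw [Function.update_of_ne (by decide)]
        simp only [bb, hx']
        by_cases hj : j = k
        · subst hj; simp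
        · rw [Function.update_of_ne hj]
      · simp
    have h1 := hTE x 1 (bb x' 1) (bb_nonneg x' 1)
    rw [e] at h1
    have e2 : ∀ σ : Fin n → Fin 2, ∑ j with σ j = 1, bb x 1 j
        = ∑ j with σ j = 1, bb x' 1 j - ((b' : ℝ) - (x k).2) * (if σ k = 1 then 1 else 0) := by
      intro σ
      rw [Finset.sum_filter, Finset.sum_filter, eq_sub_iff_add_eq, ← eq_sub_iff_add_eq',
        ← Finset.sum_sub_distrib, Finset.sum_eq_single k]
      · by_cases h0 : σ k = 1 <;> simp [h0, bb, hx']
      · intro j _ hj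
        simp [bb, hx', Function.update_of_ne hj]
      · simp
    have e3 : ∑ σ, p (bb x') σ * ∑ j with σ j = 1, bb x 1 j
        = ∑ σ, p (bb x') σ * ∑ j with σ j = 1, bb x' 1 j
          - ((b' : ℝ) - (x k).2) * (1 - g x' k) := by
      rw [hg1, Finset.mul_sum, ← Finset.sum_sub_distrib]
      refine Finset.sum_congr rfl fun σ _ => ?_
      rw [e2 σ]; ring
    rw [e3] at h1
    simp only [U]
    linarith
  · intro x s t hst hN
    have h1 := hR x (tau x s t)
    rw [load_tau0 x hst, load_tau1 x hst hN] at h1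
    have hpt : ∀ σ : Fin n → Fin 2, min ((x s).1 : ℝ) (x t).2
        + (x t).1 * (if σ t = 0 then (1 : ℝ) else 0)
        + (((x s).2 : ℝ) - (x t).2 - (x t).1) * (if σ s = 1 then (1 : ℝ) else 0)
        ≤ max (∑ k with σ k = 0, bb x 0 k) (∑ k with σ k = 1, bb x 1 k) := by
      intro σ
      have l0 := load_ge x 0 σ hst
      have l1 := load_ge x 1 σ hst
      have m0 := min_le_left ((x s).1 : ℝ) (x t).2
      have m1 := min_le_right ((x s).1 : ℝ) (x t).2
      have a0 := NNReal.coe_nonneg (x s).1
      have a1 := NNReal.coe_nonneg (x s).2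
      have a2 := NNReal.coe_nonneg (x t).1
      have a3 := NNReal.coe_nonneg (x t).2
      simp only [bb] at l0 l1 ⊢
      rcases fin2_cases (σ s) with hs | hs <;> rcases fin2_cases (σ t) with ht | ht <;>
        simp only [hs, ht, if_true, if_false, zero_ne_one, one_ne_zero] at l0 l1 ⊢
      · exact le_max_of_le_left (by linarith)
      · exact le_max_of_le_left (by linarith)
      · exact le_max_of_le_right (by linarith)
      · exact le_max_of_le_right (by linarith)
    refine le_trans (le_of_eq ?_) (le_trans (Finset.sum_le_sum fun σ (_ : σ ∈ Finset.univ) =>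
      mul_le_mul_of_nonneg_left (hpt σ) (hp x σ)) h1)
    · rw [hg1]
      have : min ((x s).1 : ℝ) (x t).2 = ∑ σ, p (bb x) σ * min ((x s).1 : ℝ) (x t).2 := by
        rw [← Finset.sum_mul, hp1, one_mul]
      conv_lhs => rw [this]
      simp only [g]
      rw [Finset.mul_sum, Finset.mul_sum, ← Finset.sum_add_distrib, ← Finset.sum_add_distrib]
      refine Finset.sum_congr rfl fun σ _ => by ring
  · intro x s t hst hN
    have h1 := hR x (tau x s t)
    rw [load_tau0 x hst, load_tau1 x hst hN] at h1
    have hpt : ∀ σ : Fin n → Fin 2, min ((x s).1 : ℝ) (x t).2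
        + (x s).2 * (if σ s = 1 then (1 : ℝ) else 0)
        + (((x t).1 : ℝ) - (x s).1 - (x s).2) * (if σ t = 0 then (1 : ℝ) else 0)
        ≤ max (∑ k with σ k = 0, bb x 0 k) (∑ k with σ k = 1, bb x 1 k) := by
      intro σ
      have l0 := load_ge x 0 σ hst
      have l1 := load_ge x 1 σ hst
      have m0 := min_le_left ((x s).1 : ℝ) (x t).2
      have m1 := min_le_right ((x s).1 : ℝ) (x t).2
      have a0 := NNReal.coe_nonneg (x s).1
      have a1 := NNReal.coe_nonneg (x s).2
      have a2 := NNReal.coe_nonneg (x t).1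
      have a3 := NNReal.coe_nonneg (x t).2
      simp only [bb] at l0 l1 ⊢
      rcases fin2_cases (σ s) with hs | hs <;> rcases fin2_cases (σ t) with ht | ht <;>
        simp only [hs, ht, if_true, if_false, zero_ne_one, one_ne_zero] at l0 l1 ⊢
      · exact le_max_of_le_left (by linarith)
      · exact le_max_of_le_left (by linarith)
      · exact le_max_of_le_left (by linarith)
      · exact le_max_of_le_right (by linarith)
    refine le_trans (le_of_eq ?_) (le_trans (Finset.sum_le_sum fun σ (_ : σ ∈ Finset.univ) =>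
      mul_le_mul_of_nonneg_left (hpt σ) (hp x σ)) h1)
    · rw [hg1]
      have : min ((x s).1 : ℝ) (x t).2 = ∑ σ, p (bb x) σ * min ((x s).1 : ℝ) (x t).2 := by
        rw [← Finset.sum_mul, hp1, one_mul]
      conv_lhs => rw [this]
      simp only [g]
      rw [Finset.mul_sum, Finset.mul_sum, ← Finset.sum_add_distrib, ← Finset.sum_add_distrib]
      refine Finset.sum_congr rfl fun σ _ => by ring

end ordered

section sym

open Finset

variable {n : ℕ}

/-- average over all orderings -/
def symF (F : (Fin n → T) → ℝ) (x : Fin n → T) : ℝ :=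
  (∑ σ : Equiv.Perm (Fin n), F (x ∘ σ)) / (Fintype.card (Equiv.Perm (Fin n)))

/-- average over all orderings, following the job `k` -/
def symG (g : (Fin n → T) → Fin n → ℝ) (x : Fin n → T) (k : Fin n) : ℝ :=
  (∑ σ : Equiv.Perm (Fin n), g (x ∘ σ) (σ.symm k)) / (Fintype.card (Equiv.Perm (Fin n)))

theorem card_pos : (0 : ℝ) < Fintype.card (Equiv.Perm (Fin n)) := by
  exact_mod_cast Fintype.card_pos

theorem symF_comp (F : (Fin n → T) → ℝ) (x : Fin n → T) (τ : Equiv.Perm (Fin n)) :
    symF F (x ∘ τ) = symF F x := by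
  unfold symF
  congr 1
  exact Equiv.sum_comp (Equiv.mulLeft τ) (fun σ : Equiv.Perm (Fin n) => F (x ∘ σ))

theorem symG_comp (g : (Fin n → T) → Fin n → ℝ) (x : Fin n → T) (τ : Equiv.Perm (Fin n))
    (k : Fin n) : symG g (x ∘ τ) (τ.symm k) = symG g x k := by
  unfold symG
  congr 1
  exact Equiv.sum_comp (Equiv.mulLeft τ)
    (fun σ : Equiv.Perm (Fin n) => g (x ∘ σ) (σ.symm k))

theorem exists_perm {x y : Fin n → T}
    (h : (univ : Finset (Fin n)).val.map x = (univ : Finset (Fin n)).val.map y) :
    ∃ τ : Equiv.Perm (Fin n), y = x ∘ τ := by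
  classical
  have hc : ∀ a, Nonempty ({k // y k = a} ≃ {k // x k = a}) := by
    intro a
    rw [← Fintype.card_eq, Fintype.card_subtype, Fintype.card_subtype]
    have := congrArg (Multiset.count a) h
    rw [Multiset.count_map, Multiset.count_map] at this
    rw [Finset.card_def, Finset.card_def, Finset.filter_val, Finset.filter_val]
    simp only [eq_comm (a := a)] at this
    exact this.symm
  refine ⟨Equiv.ofFiberEquiv (f := y) (g := x) (fun a => (hc a).some), ?_⟩
  funext k
  exact (Equiv.ofFiberEquiv_map (f := y) (g := x) _ k).symm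

theorem symG_congr (g : (Fin n → T) → Fin n → ℝ) {x y : Fin n → T}
    (h : (univ : Finset (Fin n)).val.map x = (univ : Finset (Fin n)).val.map y) {k k' : Fin n}
    (hk : x k = y k') : symG g x k = symG g y k' := by
  obtain ⟨τ, rfl⟩ := exists_perm h
  have h1 : x ∘ Equiv.swap k (τ k') = x := by
    funext j
    simp only [Function.comp]
    rcases eq_or_ne j k with rfl | h1
    · rw [Equiv.swap_apply_left]; exact hk.symm
    · rcases eq_or_ne j (τ k') with rfl | h2
      · rw [Equiv.swap_apply_right]; exact hk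
      · rw [Equiv.swap_apply_of_ne_of_ne h1 h2]
  have h2 := symG_comp g x (Equiv.swap k (τ k')) k
  rw [h1, Equiv.symm_swap, Equiv.swap_apply_left] at h2
  have h3 := symG_comp g x τ (τ k')
  rw [Equiv.symm_apply_apply] at h3
  rw [← h2, h3]

theorem symF_congr (F : (Fin n → T) → ℝ) {x y : Fin n → T}
    (h : (univ : Finset (Fin n)).val.map x = (univ : Finset (Fin n)).val.map y) :
    symF F x = symF F y := by
  obtain ⟨τ, rfl⟩ := exists_perm h
  exact (symF_comp F x τ).symm

/-- enumeration of a multiset -/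
def en (m : Multiset T) : Fin m.toList.length → T := fun i => m.toList.get i

theorem map_en (m : Multiset T) :
    (univ : Finset (Fin m.toList.length)).val.map (en m) = m := by
  unfold en
  rw [Fin.univ_val_map]
  have : (List.ofFn fun i => m.toList.get i) = m.toList := List.ofFn_get _
  rw [this, Multiset.coe_toList]

theorem en_mem (m : Multiset T) (j : Fin m.toList.length) : en m j ∈ m :=
  Multiset.mem_toList.1 (List.get_mem _ _)

theorem map_cons (t : T) (x : Fin n → T) :
    (univ : Finset (Fin (n + 1))).val.map (Fin.cons t x : Fin (n + 1) → T)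
      = t ::ₘ (univ : Finset (Fin n)).val.map x := by
  rw [Fin.univ_val_map, Fin.univ_val_map, List.ofFn_cons]
  rfl

/-- the symmetrised allocation -/
def phat (g : ∀ n, (Fin n → T) → Fin n → ℝ) (ω : T × Multiset T) : ℝ :=
  symG (g (ω.2.toList.length + 1)) (Fin.cons ω.1 (en ω.2)) 0

/-- the symmetrised utility -/
def vhat (V : ∀ n, (Fin n → T) → ℝ) (m : Multiset T) : ℝ :=
  symF (V m.toList.length) (en m)

theorem vhat_eq (V : ∀ n, (Fin n → T) → ℝ) {m : Multiset T} {x : Fin n → T}
    (h : (univ : Finset (Fin n)).val.map x = m) : vhat V m = symF (V n) x := by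
  have hn : n = m.toList.length := by
    have := congrArg Multiset.card h
    rw [Multiset.card_map] at this
    rw [Multiset.length_toList, ← this]; simp
  subst hn
  unfold vhat
  exact symF_congr _ ((map_en m).trans h.symm)

theorem phat_eq (g : ∀ n, (Fin n → T) → Fin n → ℝ) {t : T} {m : Multiset T} {x : Fin n → T}
    (h : (univ : Finset (Fin n)).val.map x = t ::ₘ m) {k : Fin n} (hk : x k = t) :
    phat g (t, m) = symG (g n) x k := by
  have hn : n = m.toList.length + 1 := by
    have := congrArg Multiset.card h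
    rw [Multiset.card_map, Multiset.card_cons] at this
    rw [Multiset.length_toList, ← this]; simp
  subst hn
  unfold phat
  refine symG_congr _ ?_ (by simpa using hk.symm)
  rw [map_cons, map_en]
  exact h.symm

theorem cons_update (t t' : T) (y : Fin n → T) (σ : Equiv.Perm (Fin (n + 1))) :
    (Fin.cons t' y : Fin (n + 1) → T) ∘ σ
      = Function.update ((Fin.cons t y : Fin (n + 1) → T) ∘ σ) (σ.symm 0) t' := by
  funext j
  rcases eq_or_ne j (σ.symm 0) with rfl | h
  · simp
  · rw [Function.update_of_ne h]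
    simp only [Function.comp]
    have : σ j ≠ 0 := fun h0 => h (by rw [← h0, Equiv.symm_apply_apply])
    obtain ⟨i, hi⟩ := Fin.exists_succ_eq.2 this
    rw [← hi, Fin.cons_succ, Fin.cons_succ]

theorem symG_nonneg {g : (Fin n → T) → Fin n → ℝ} (h : ∀ x k, 0 ≤ g x k) (x : Fin n → T)
    (k : Fin n) : 0 ≤ symG g x k :=
  div_nonneg (Finset.sum_nonneg fun σ _ => h _ _) card_pos.le

theorem symG_le_one {g : (Fin n → T) → Fin n → ℝ} (h : ∀ x k, g x k ≤ 1) (x : Fin n → T)
    (k : Fin n) : symG g x k ≤ 1 := by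
  unfold symG
  rw [div_le_one card_pos]
  calc _ ≤ ∑ _σ : Equiv.Perm (Fin n), (1 : ℝ) := Finset.sum_le_sum fun σ _ => h _ _
    _ = _ := by simp

/-- Mechanisms for all numbers of jobs give an anonymous family. -/
theorem fam_of_hasMechanism {c : ℝ} (H : ∀ n, HasMechanism n c) : ∃ p, Fam c p := by
  choose g V Y h using fun n => ofam_of_hasMechanism (H n)
  refine ⟨phat g, ⟨fun ω => symG_nonneg (h _).nonneg _ _, fun ω => symG_le_one (h _).le_one _ _,
    ⟨vhat V, ?_⟩, ⟨vhat Y, ?_⟩, ?_, ?_⟩⟩
  · intro a a' b m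
    have e := map_en m
    have e2 : ∀ t : T, vhat V (t ::ₘ m)
        = symF (V (m.toList.length + 1)) (Fin.cons t (en m)) := fun t =>
      vhat_eq V (by rw [map_cons, e])
    rw [e2, e2,
      phat_eq g (x := (Fin.cons (a', b) (en m) : Fin (m.toList.length + 1) → T)) (k := 0)
        (by rw [map_cons, e]) (by simp)]
    unfold symF symG
    rw [← mul_div_assoc, ← add_div, div_le_div_iff_of_pos_right card_pos, Finset.mul_sum,
      ← Finset.sum_add_distrib]
    refine Finset.sum_le_sum fun σ _ => ?_
    have h1 := (h (m.toList.length + 1)).teV ((Fin.cons (a, b) (en m) : Fin _ → T) ∘ σ)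
      (σ.symm 0) a'
    have e1 : ((Fin.cons (a, b) (en m) : Fin (m.toList.length + 1) → T) ∘ σ) (σ.symm 0)
        = (a, b) := by simp
    rw [e1, ← cons_update] at h1
    exact h1
  · intro a b b' m
    have e := map_en m
    have e2 : ∀ t : T, vhat Y (t ::ₘ m)
        = symF (Y (m.toList.length + 1)) (Fin.cons t (en m)) := fun t =>
      vhat_eq Y (by rw [map_cons, e])
    rw [e2, e2,
      phat_eq g (x := (Fin.cons (a, b') (en m) : Fin (m.toList.length + 1) → T)) (k := 0)
        (by rw [map_cons, e]) (by simp)]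
    have e0 : 1 - symG (g (m.toList.length + 1)) (Fin.cons (a, b') (en m)) 0
        = (∑ σ : Equiv.Perm (Fin (m.toList.length + 1)),
          (1 - g (m.toList.length + 1) ((Fin.cons (a, b') (en m) : Fin _ → T) ∘ σ) (σ.symm 0)))
          / (Fintype.card (Equiv.Perm (Fin (m.toList.length + 1)))) := by
      rw [Finset.sum_sub_distrib, sub_div]
      unfold symG
      congr 1
      rw [Finset.sum_const, nsmul_eq_mul, mul_one, Finset.card_univ, div_self card_pos.ne']
    rw [e0]
    unfold symF
    rw [← mul_div_assoc, ← add_div, div_le_div_iff_of_pos_right card_pos, Finset.mul_sum,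
      ← Finset.sum_add_distrib]
    refine Finset.sum_le_sum fun σ _ => ?_
    have h1 := (h (m.toList.length + 1)).teY ((Fin.cons (a, b) (en m) : Fin _ → T) ∘ σ)
      (σ.symm 0) b'
    have e1 : ((Fin.cons (a, b) (en m) : Fin (m.toList.length + 1) → T) ∘ σ) (σ.symm 0)
        = (a, b) := by simp
    rw [e1, ← cons_update] at h1
    exact h1
  · intro s t m hm
    have e := map_en m
    set N := m.toList.length with hN
    set x : Fin (N + 2) → T := Fin.cons s (Fin.cons t (en m)) with hx
    have ex : (univ : Finset (Fin (N + 2))).val.map x = s ::ₘ t ::ₘ m := by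
      rw [hx, map_cons, map_cons, e]
    have x0 : x 0 = s := by simp [hx]
    have x1 : x 1 = t := by
      rw [hx, show (1 : Fin (N + 2)) = Fin.succ 0 from rfl, Fin.cons_succ, Fin.cons_zero]
    rw [phat_eq g (x := x) (k := 1) (by rw [ex, Multiset.cons_swap]) x1,
      phat_eq g (x := x) (k := 0) ex x0]
    have hnull : ∀ k : Fin (N + 2), k ≠ 0 → k ≠ 1 → Null (x k) := by
      intro k h0 h1
      obtain ⟨i, rfl⟩ := Fin.exists_succ_eq.2 h0
      have hi : i ≠ 0 := by rintro rfl; exact h1 rfl
      obtain ⟨j, rfl⟩ := Fin.exists_succ_eq.2 hi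
      rw [hx, Fin.cons_succ, Fin.cons_succ]
      exact hm _ (en_mem m j)
    have hcost : ∀ σ : Equiv.Perm (Fin (N + 2)), min (s.1 : ℝ) t.2
        + t.1 * g (N + 2) (x ∘ σ) (σ.symm 1)
        + ((s.2 : ℝ) - t.2 - t.1) * (1 - g (N + 2) (x ∘ σ) (σ.symm 0))
        ≤ c * max (s.1 : ℝ) t.2 := by
      intro σ
      have := (h (N + 2)).cost (x ∘ σ) (σ.symm 0) (σ.symm 1) (by simp) (by
        intro k h0 h1
        exact hnull _ (fun h => h0 (by rw [← h, Equiv.symm_apply_apply]))
          (fun h => h1 (by rw [← h, Equiv.symm_apply_apply])))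
      simp only [Function.comp, Equiv.apply_symm_apply, x0, x1] at this
      exact this
    have hs := Finset.sum_le_sum fun σ (_ : σ ∈ (univ : Finset (Equiv.Perm (Fin (N + 2))))) =>
      hcost σ
    rw [Finset.sum_add_distrib, Finset.sum_add_distrib, ← Finset.mul_sum, ← Finset.mul_sum,
      Finset.sum_sub_distrib] at hs
    simp only [Finset.sum_const, nsmul_eq_mul, mul_one, Finset.card_univ] at hs
    unfold symG
    have hc := card_pos (n := N + 2)
    refine le_of_mul_le_mul_left ?_ hc
    refine le_trans (le_of_eq ?_) hs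
    field_simp
  · intro s t m hm
    have e := map_en m
    set N := m.toList.length with hN
    set x : Fin (N + 2) → T := Fin.cons s (Fin.cons t (en m)) with hx
    have ex : (univ : Finset (Fin (N + 2))).val.map x = s ::ₘ t ::ₘ m := by
      rw [hx, map_cons, map_cons, e]
    have x0 : x 0 = s := by simp [hx]
    have x1 : x 1 = t := by
      rw [hx, show (1 : Fin (N + 2)) = Fin.succ 0 from rfl, Fin.cons_succ, Fin.cons_zero]
    rw [phat_eq g (x := x) (k := 1) (by rw [ex, Multiset.cons_swap]) x1,
      phat_eq g (x := x) (k := 0) ex x0]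
    have hnull : ∀ k : Fin (N + 2), k ≠ 0 → k ≠ 1 → Null (x k) := by
      intro k h0 h1
      obtain ⟨i, rfl⟩ := Fin.exists_succ_eq.2 h0
      have hi : i ≠ 0 := by rintro rfl; exact h1 rfl
      obtain ⟨j, rfl⟩ := Fin.exists_succ_eq.2 hi
      rw [hx, Fin.cons_succ, Fin.cons_succ]
      exact hm _ (en_mem m j)
    have hcost : ∀ σ : Equiv.Perm (Fin (N + 2)), min (s.1 : ℝ) t.2
        + s.2 * (1 - g (N + 2) (x ∘ σ) (σ.symm 0))
        + ((t.1 : ℝ) - s.1 - s.2) * g (N + 2) (x ∘ σ) (σ.symm 1)
        ≤ c * max (s.1 : ℝ) t.2 := by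
      intro σ
      have := (h (N + 2)).cost' (x ∘ σ) (σ.symm 0) (σ.symm 1) (by simp) (by
        intro k h0 h1
        exact hnull _ (fun h => h0 (by rw [← h, Equiv.symm_apply_apply]))
          (fun h => h1 (by rw [← h, Equiv.symm_apply_apply])))
      simp only [Function.comp, Equiv.apply_symm_apply, x0, x1] at this
      exact this
    have hs := Finset.sum_le_sum fun σ (_ : σ ∈ (univ : Finset (Equiv.Perm (Fin (N + 2))))) =>
      hcost σ
    rw [Finset.sum_add_distrib, Finset.sum_add_distrib, ← Finset.mul_sum, ← Finset.mul_sum,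
      Finset.sum_sub_distrib] at hs
    simp only [Finset.sum_const, nsmul_eq_mul, mul_one, Finset.card_univ] at hs
    unfold symG
    have hc := card_pos (n := N + 2)
    refine le_of_mul_le_mul_left ?_ hc
    refine le_trans (le_of_eq ?_) hs
    field_simp

end sym

end

end Pool.Agent.Lib.MP_2c6a66_lc.LB
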